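import Pool.Agent.P.MP_867493_lc.Red
import Pool.Agent.Lib.NP.Sim

/-! Random control words: the check, its soundness and its success probability. -/

set_option autoImplicit false

namespace Pool.Agent.P.MP_867493_lc

open Pool.Agent.Lib.NP

section IsProd

variable {Q : Type} [Group Q] {c c' : List Q} {k k' : ℕ} {g g' : Q}

theorem IsProd.one (c : List Q) (k : ℕ) : IsProd c k 1 := ⟨[], by simp, by simp, rfl⟩

theorem IsProd.mul (h : IsProd c k g) (h' : IsProd c k' g') : IsProd c (k + k') (g * g') := by
  obtain ⟨l, h1, h2, rfl⟩ := h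
  obtain ⟨l', h1', h2', rfl⟩ := h'
  refine ⟨l ++ l', by simp; omega, fun a ha => ?_, by simp⟩
  rcases List.mem_append.1 ha with h | h
  exacts [h2 a h, h2' a h]

theorem IsProd.inv (h : IsProd c k g) : IsProd c k g⁻¹ := by
  obtain ⟨l, h1, h2, rfl⟩ := h
  refine ⟨(l.map fun x => x⁻¹).reverse, by simpa using h1, fun a ha => ?_,
    (List.prod_inv_reverse l).symm⟩
  simp only [List.mem_reverse, List.mem_map] at ha
  obtain ⟨b, hb, rfl⟩ := ha
  simpa using (h2 b hb).symm

theorem IsProd.mono (h : IsProd c k g) (hc : c ⊆ c') (hk : k ≤ k') : IsProd c' k' g := by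
  obtain ⟨l, h1, h2, rfl⟩ := h
  exact ⟨l, h1.trans hk, fun a ha => (h2 a ha).imp (fun h => hc h) (fun h => hc h), rfl⟩

theorem IsProd.single (h : g ∈ c) : IsProd c 1 g := ⟨[g], le_rfl, by simp [h], by simp⟩

/-- The least number of factors. -/
noncomputable def nrm (c : List Q) (g : Q) : ℕ := sInf {k | IsProd c k g}

theorem nrm_le (h : IsProd c k g) : nrm c g ≤ k := Nat.sInf_le h

theorem nrm_spec (hc : ∀ g, ∃ k, IsProd c k g) (g : Q) : IsProd c (nrm c g) g :=
  Nat.sInf_mem (s := {k | IsProd c k g}) (hc g)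

theorem isNorm_nrm (hc : ∀ g, ∃ k, IsProd c k g) : IsNorm (nrm c) where
  one := Nat.le_zero.1 (nrm_le (IsProd.one c 0))
  mul a b := nrm_le ((nrm_spec hc a).mul (nrm_spec hc b))
  inv a := le_antisymm (nrm_le (nrm_spec hc a).inv) (by simpa using nrm_le (nrm_spec hc a⁻¹).inv)

end IsProd

variable {G : Type} [Group G] (xs : List G)

theorem ev_single (i : ℕ) (b : Bool) :
    ev xs [(i, b)] = if b then xs.getD i 1 else (xs.getD i 1)⁻¹ := by simp [ev]

theorem exists_word (hxs : Subgroup.closure {x | x ∈ xs} = ⊤) (g : G) : ∃ w, ev xs w = g := by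
  have hg : g ∈ Subgroup.closure {x | x ∈ xs} := by rw [hxs]; trivial
  induction hg using Subgroup.closure_induction with
  | mem x hx =>
    obtain ⟨i, hi, rfl⟩ := List.getElem_of_mem hx
    exact ⟨[(i, true)], by simp [ev_single, hi]⟩
  | one => exact ⟨[], rfl⟩
  | mul x y _ _ hx hy =>
    obtain ⟨w, rfl⟩ := hx
    obtain ⟨w', rfl⟩ := hy
    exact ⟨w ++ w', by simp⟩
  | inv x _ hx =>
    obtain ⟨w, rfl⟩ := hx
    exact ⟨invW w, by simp⟩

theorem isProd_ev {Q : Type} [Group Q] (φ : G →* Q) (c : List Q)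
    (hc : ∀ j < xs.length, φ (xs.getD j 1) ∈ c) (w : Wd) : IsProd c w.length (φ (ev xs w)) := by
  induction w with
  | nil => simpa using IsProd.one c 0
  | cons l w ih =>
    rcases l with ⟨i, b⟩
    rw [ev_cons, map_mul, List.length_cons, add_comm]
    refine IsProd.mul ?_ ih
    have : IsProd c 1 (φ (xs.getD i 1)) := by
      by_cases hi : i < xs.length
      · exact .single (hc i hi)
      · rw [List.getD_eq_default _ _ (by omega), map_one]; exact .one _ _
    cases b
    · simpa [ev_single] using this.inv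
    · simpa [ev_single] using this

theorem ssp_of_isProd (A : List Wd) (K : ℕ) (w : Wd) (h : IsProd (A.map (ev xs)) K (ev xs w)) :
    SSP xs ((List.replicate K (A ++ A.map invW)).flatten, w) := by
  obtain ⟨l, h1, h2, h3⟩ := h
  unfold SSP
  simp only [← h3]
  clear h3
  induction l generalizing K with
  | nil => exact ⟨[], by simp, rfl⟩
  | cons a l ih =>
    obtain ⟨K, rfl⟩ : ∃ K', K = K' + 1 := ⟨K - 1, by simp at h1; omega⟩
    obtain ⟨l', h4, h5⟩ := ih K (by simpa using h1) (fun b hb => h2 b (by simp [hb]))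
    obtain ⟨u, hu, hu'⟩ : ∃ u ∈ A ++ A.map invW, ev xs u = a := by
      rcases h2 a (by simp) with h | h
      · obtain ⟨u, hu, rfl⟩ := List.mem_map.1 h
        exact ⟨u, by simp [hu], rfl⟩
      · obtain ⟨u, hu, hu'⟩ := List.mem_map.1 h
        exact ⟨invW u, List.mem_append_right _ (List.mem_map_of_mem hu), by simp [hu']⟩
    refine ⟨[u] ++ l', ?_, by simp [h5, hu']⟩
    rw [List.replicate_succ, List.flatten_cons]
    exact (List.singleton_sublist.2 hu).append h4

theorem exists_bad (hxs : Subgroup.closure {x | x ∈ xs} = ⊤) (B : Finset G) :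
    ∃ Bad : Finset (G ⧸ Subgroup.center G), Bad.card ≤ B.card ^ xs.length ∧
      ∀ g : G, (∀ j < xs.length, g * xs.getD j 1 * g⁻¹ ∈ B) → (g : G ⧸ Subgroup.center G) ∈ Bad := by
  classical
  refine ⟨(Fintype.piFinset fun _ : Fin xs.length => B).image fun φ =>
    if h : ∃ g : G, ∀ j : Fin xs.length, g * xs.getD j 1 * g⁻¹ = φ j then
      (h.choose : G ⧸ Subgroup.center G) else 1, Finset.card_image_le.trans (by simp),
    fun g hg => Finset.mem_image.2 ⟨fun j => g * xs.getD j 1 * g⁻¹, by
      simpa using fun j : Fin xs.length => hg j j.2, ?_⟩⟩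
  have h : ∃ g' : G, ∀ j : Fin xs.length, g' * xs.getD j 1 * g'⁻¹ = g * xs.getD j 1 * g⁻¹ :=
    ⟨g, fun _ => rfl⟩
  rw [dif_pos h, QuotientGroup.eq, Subgroup.mem_center_iff]
  have h1 := h.choose_spec
  generalize h.choose = g' at h1
  intro y
  have hy : y ∈ Subgroup.closure {x | x ∈ xs} := by rw [hxs]; trivial
  have : Subgroup.closure {x | x ∈ xs} ≤ Subgroup.centralizer {g'⁻¹ * g} := by
    rw [Subgroup.closure_le]
    intro x hx
    obtain ⟨i, hi, rfl⟩ := List.getElem_of_mem hx
    have := h1 ⟨i, hi⟩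
    simp only [List.getD_eq_getElem _ _ hi] at this
    rw [SetLike.mem_coe, Subgroup.mem_centralizer_singleton_iff]
    calc xs[i] * (g'⁻¹ * g) = g'⁻¹ * (g' * xs[i] * g'⁻¹) * g := by group
      _ = g'⁻¹ * g * xs[i] := by rw [this]; group
  exact Subgroup.mem_centralizer_singleton_iff.1 (this hy)

section Defs

variable (f : List Wd × Wd → Bool) (d L K : ℕ) (r : List Bool)

/-- The `t`-th control word, cut out by the `t`-th block of random bits. -/
def cw (t : ℕ) : Wd :=
  msk (List.replicate L ((List.range d).map fun j => (j, true))).flatten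
    ((r.drop (t * (L * d))).take (L * d))

def olds (t : ℕ) : List Wd := ((List.range d).map fun j => [(j, true)]) ++ (List.range t).map (cw d L r)

def chain (t : ℕ) : List Wd :=
  (List.replicate K (olds d L r t ++ (olds d L r t).map invW)).flatten

def farB (t j : ℕ) : Bool := !f (chain d L K r t, cw d L r t ++ [(j, true)] ++ invW (cw d L r t))

def cands (i : ℕ) : List (ℕ × ℕ × ℕ) :=
  (List.range (d + 1)).flatMap fun a => (List.range (d + 1)).flatMap fun b =>
    (List.range d).map fun j => ((i + 1) * (d + 2) + 1 + a, (i + 1) * (d + 2) + 1 + b, j)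

def selB (i : ℕ) : ℕ × ℕ × ℕ :=
  ((cands d i).filter fun x => decide (x.1 < x.2.1) &&
    (farB f d L K r x.1 x.2.2 && farB f d L K r x.2.1 x.2.2)).headD (0, 0, 0)

def chkB (M : ℕ) : Bool := (List.range M).all fun t => (List.range d).any fun j => farB f d L K r t j

end Defs

theorem headD_mem {α : Type} {l : List α} (h : l ≠ []) (a : α) : l.headD a ∈ l := by
  cases l with
  | nil => exact absurd rfl h
  | cons b l => simp

theorem ctrl_of_chk (hxs : Subgroup.closure {x | x ∈ xs} = ⊤) (f : List Wd × Wd → Bool)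
    (hf : ∀ I, f I = true ↔ SSP xs I) (L K n0 : ℕ) (r : List Bool)
    (h : chkB f xs.length L K r ((n0 + 1) * (xs.length + 2)) = true) :
    Ctrl xs xs.length (cw xs.length L r) (selB f xs.length L K r)
      (fun t => nrm ((olds xs.length L r t).map (ev xs))) n0 K := by
  set d := xs.length with hd
  have hlen : ∀ t w, IsProd ((olds d L r t).map (ev xs)) w.length (ev xs w) := fun t w =>
    isProd_ev xs (MonoidHom.id G) _ (fun j hj => List.mem_map.2 ⟨[(j, true)],
      List.mem_append_left _ (List.mem_map.2 ⟨j, List.mem_range.2 hj, rfl⟩), by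
        simp [ev_single]⟩) w
  have hne : ∀ t g, ∃ k, IsProd ((olds d L r t).map (ev xs)) k g := fun t g => by
    obtain ⟨w, rfl⟩ := exists_word xs hxs g
    exact ⟨_, hlen t w⟩
  have hfar : ∀ t j, farB f d L K r t j = true → K < nrm ((olds d L r t).map (ev xs))
      (ev xs (cw d L r t ++ [(j, true)] ++ invW (cw d L r t))) := by
    intro t j hj
    by_contra hK
    have := (hf _).2 (ssp_of_isProd xs _ K _
      ((nrm_spec (hne t) _).mono (List.Subset.refl _) (not_lt.1 hK)))
    simp only [farB, chain, this] at hj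
    simp at hj
  simp only [chkB, List.all_eq_true, List.any_eq_true, List.mem_range] at h
  have hsel : ∀ i < n0, selB f d L K r i ∈ (cands d i).filter fun x => decide (x.1 < x.2.1) &&
      (farB f d L K r x.1 x.2.2 && farB f d L K r x.2.1 x.2.2) := by
    intro i hi
    apply headD_mem
    have h1 : ∀ a : Fin (d + 1), ∃ j : Fin d, farB f d L K r ((i + 1) * (d + 2) + 1 + a) j = true := by
      intro a
      obtain ⟨j, hj, hj'⟩ := h ((i + 1) * (d + 2) + 1 + a) (by
        have := a.2
        have : (i + 2) * (d + 2) ≤ (n0 + 1) * (d + 2) := Nat.mul_le_mul_right _ (by omega)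
        nlinarith)
      exact ⟨⟨j, hj⟩, hj'⟩
    choose J hJ using h1
    obtain ⟨a, b, hab, hJab⟩ := Fintype.exists_ne_map_eq_of_card_lt J (by simp)
    wlog hlt : a < b generalizing a b
    · exact this b a hab.symm hJab.symm (lt_of_le_of_ne (not_lt.1 hlt) hab.symm)
    refine List.ne_nil_of_mem (a := (((i + 1) * (d + 2) + 1 + (a : ℕ),
      (i + 1) * (d + 2) + 1 + (b : ℕ), (J a : ℕ)) : ℕ × ℕ × ℕ)) ?_
    rw [List.mem_filter]
    constructor
    · simp only [cands, List.mem_flatMap, List.mem_map, List.mem_range]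
      exact ⟨a, a.2, b, b.2, J a, (J a).2, rfl⟩
    · have h2 := hJ b
      rw [← hJab] at h2
      have : (a : ℕ) < b := hlt
      simp [hJ a, h2, this]
  have hsel' : ∀ i < n0, (i + 1) * (d + 2) < (selB f d L K r i).1 ∧
      (selB f d L K r i).2.1 < (i + 2) * (d + 2) := by
    intro i hi
    have := (List.mem_filter.1 (hsel i hi)).1
    simp only [cands, List.mem_flatMap, List.mem_map, List.mem_range] at this
    obtain ⟨a, ha, b, hb, j, hj, he⟩ := this
    rw [← he]
    constructor
    · simp only; omega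
    · simp only; nlinarith
  have hsel2 := fun i hi => (List.mem_filter.1 (hsel i hi)).2
  simp only [Bool.and_eq_true, decide_eq_true_eq] at hsel2
  refine ⟨fun t => isNorm_nrm (hne t), fun t t' g htt => nrm_le ((nrm_spec (hne t) g).mono
    (List.map_subset _ (List.append_subset.2 ⟨List.subset_append_left _ _,
      List.subset_append_of_subset_right _ (List.map_subset _ (List.range_subset.2 htt))⟩)) le_rfl),
    fun t w => nrm_le (hlen t w), fun t j hj => nrm_le (.single (List.mem_map_of_mem
      (List.mem_append_right _ (List.mem_map_of_mem (List.mem_range.2 hj))))), fun i hi => ?_,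
    fun i hi => (hsel' i hi).1, fun i hi => (hsel2 i hi).1, fun i hi => (hsel' i hi).2,
    fun i hi => hfar _ _ (hsel2 i hi).2.1, fun i hi => hfar _ _ (hsel2 i hi).2.2⟩
  obtain ⟨j, -, hj⟩ := h (i * (d + 2)) (by
    have : i * (d + 2) ≤ n0 * (d + 2) := Nat.mul_le_mul_right _ hi
    nlinarith)
  have h1 := hfar _ _ hj
  have hn := isNorm_nrm (hne (i * (d + 2)))
  have h2 := hn.mul3 (ev xs (cw d L r (i * (d + 2)))) (ev xs [(j, true)])
    (ev xs (cw d L r (i * (d + 2))))⁻¹
  have h3 := nrm_le (hlen (i * (d + 2)) [(j, true)])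
  simp only [ev_append, ev_invW, hn.inv, List.length_singleton] at h1 h2 h3 ⊢
  omega

theorem msk_sublist {α : Type} (c : List α) (r : List Bool) : (msk c r).Sublist c := by
  induction c generalizing r with
  | nil => simp [msk]
  | cons a c ih =>
    cases r with
    | nil => simp [msk]
    | cons b r =>
      cases b
      · exact (ih r).cons a
      · exact (ih r).cons_cons a

theorem cw_append (d L : ℕ) (x y : List Bool) (t j : ℕ) (hj : j < t) (hx : x.length = t * (L * d)) :
    cw d L (x ++ y) j = cw d L x j := by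
  have h1 : (j + 1) * (L * d) ≤ t * (L * d) := Nat.mul_le_mul_right _ hj
  rw [add_mul, one_mul] at h1
  unfold cw
  rw [List.drop_append_of_le_length (by omega), List.take_append_of_le_length (by simp; omega)]

theorem chain_append (d L K : ℕ) (x y : List Bool) (t : ℕ) (hx : x.length = t * (L * d)) :
    chain d L K (x ++ y) t = chain d L K x t := by
  have : olds d L (x ++ y) t = olds d L x t := by
    unfold olds
    rw [List.map_congr_left fun j hj => cw_append d L x y t j (List.mem_range.1 hj) hx]
  unfold chain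
  rw [this]

theorem length_chain (d L K : ℕ) (x : List Bool) (t : ℕ) :
    (chain d L K x t).length = K * (2 * (d + t)) := by
  simp [chain, olds]; ring_nf; simp

theorem fail_prob (hxs : Subgroup.closure {x | x ∈ xs} = ⊤) (f : List Wd × Wd → Bool)
    (hf : ∀ I, f I = true ↔ SSP xs I) (hd : 1 ≤ xs.length) (K M ρ h e : ℕ) (hρ : 1 ≤ ρ)
    (hh : K * (2 * (xs.length + M)) * xs.length + 1 + 2 * e ≤ h)
    (Ω : Finset (G ⧸ Subgroup.center G)) (hΩ : 2 ^ h ≤ Ω.card)
    (hΩ' : ∀ g ∈ Ω, ∃ w : Wd, w.length ≤ ρ ∧ QuotientGroup.mk (ev xs w) = g)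
    (t : ℕ) (ht : t < M) :
    avg (M * (2 * ρ ^ 2 * xs.length * h * xs.length)) (fun r =>
      if (List.range xs.length).any (fun j => farB f xs.length (2 * ρ ^ 2 * xs.length * h) K r t j)
        then (0 : ℝ) else 1) ≤ 1 / 2 ^ e := by
  classical
  set d := xs.length with hd'
  set L := 2 * ρ ^ 2 * d * h with hL
  obtain ⟨m, rfl⟩ : ∃ m, M = t + (1 + m) := ⟨M - t - 1, by omega⟩
  rw [add_mul, add_mul, one_mul, avg_append]
  refine (avg_mono _ _ (fun _ => 1 / 2 ^ e) fun x hx => ?_).trans (avg_const _ _).le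
  obtain ⟨Bad, hB1, hB2⟩ := exists_bad xs hxs
    ((chain d L K x t).sublists.map fun l => (l.map (ev xs)).prod).toFinset
  let c : List (G ⧸ Subgroup.center G) := (List.range d).map fun j => ((xs.getD j 1 : G) : _)
  have hc : c.length = d := by simp [c]
  have key := walk_bound c (by omega) ρ hρ h Ω hΩ (fun g hg => by
    obtain ⟨w, hw, rfl⟩ := hΩ' g hg
    exact (isProd_ev xs (QuotientGroup.mk' _) c (fun j hj =>
      List.mem_map.2 ⟨j, List.mem_range.2 hj, rfl⟩) w).mono (List.Subset.refl _) hw) Bad
  rw [hc, ← hL] at key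
  have hcard : (Bad.card : ℝ) ≤ 2 ^ (K * (2 * (d + (t + (1 + m)))) * d) := by
    have h1 : ((chain d L K x t).sublists.map fun l => (l.map (ev xs)).prod).toFinset.card ≤
        2 ^ (K * (2 * (d + (t + (1 + m))))) := by
      refine (List.toFinset_card_le _).trans ?_
      rw [List.length_map, List.length_sublists, length_chain]
      exact Nat.pow_le_pow_right (by norm_num) (Nat.mul_le_mul_left _ (by omega))
    have h2 := hB1.trans (Nat.pow_le_pow_left h1 _)
    rw [← pow_mul] at h2
    exact_mod_cast h2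
  have key2 : avg (L * d) (fun r => if (msk (List.replicate L c).flatten r).prod ∈ Bad
      then (1 : ℝ) else 0) ≤ 1 / 2 ^ e := by
    refine (abs_le_of_sq_le_sq' (key.trans ?_) (by positivity)).2
    refine (mul_le_mul_of_nonneg_right hcard (by positivity)).trans ?_
    have h3 : (2 : ℝ) ^ (K * (2 * (d + (t + (1 + m)))) * d + 1 + 2 * e) ≤ 2 ^ h :=
      pow_le_pow_right₀ (by norm_num) hh
    rw [div_pow, one_pow, ← pow_mul, ← mul_div_assoc, div_le_div_iff₀ (by positivity)
      (by positivity), one_mul, mul_comm e 2]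
    simpa only [pow_add, pow_one] using h3
  rw [avg_append]
  refine (avg_mono _ _ _ fun y hy => ?_).trans key2
  refine (avg_mono _ _ (fun _ => _) fun z _ => ?_).trans (avg_const _ _).le
  by_cases hany : (List.range d).any (fun j => farB f d L K (x ++ (y ++ z)) t j) = true
  · rw [if_pos hany]; split_ifs <;> norm_num
  rw [if_neg hany, if_pos]
  have e1 : cw d L (x ++ (y ++ z)) t =
      msk (List.replicate L ((List.range d).map fun j => (j, true))).flatten y := by
    unfold cw
    rw [← hx, List.drop_left, ← hy, List.take_left]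
  have e2 : (msk (List.replicate L c).flatten y).prod =
      QuotientGroup.mk (ev xs (cw d L (x ++ (y ++ z)) t)) := by
    rw [e1, ev, ← QuotientGroup.mk'_apply, map_list_prod, List.map_map, msk_map]
    simp [c, List.map_flatten, List.map_replicate, Function.comp_def]
  rw [e2]
  refine hB2 _ fun j hj => ?_
  simp only [List.any_eq_true, List.mem_range, not_exists, not_and, farB, Bool.not_eq_true',
    Bool.not_eq_false] at hany
  obtain ⟨l, hl, hl'⟩ := (hf _).1 (hany j hj)
  rw [chain_append d L K x _ t hx] at hl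
  simp only [List.mem_toFinset, List.mem_map, List.mem_sublists]
  exact ⟨l, hl, by rw [hl']; simp only [ev_append, ev_invW, ev_single, if_true]⟩

theorem chk_prob (f : List Wd × Wd → Bool) (d L K M n : ℕ)
    (h : ∀ t < M, avg n (fun r => if (List.range d).any (fun j => farB f d L K r t j)
      then (0 : ℝ) else 1) ≤ 1 / 2 ^ (M + 2)) :
    3 / 4 ≤ avg n (fun r => if chkB f d L K r M then (1 : ℝ) else 0) := by
  have h1 : avg n (fun _ => (1 : ℝ)) ≤ avg n (fun r => (if chkB f d L K r M then (1 : ℝ) else 0) +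
      ∑ t ∈ Finset.range M, if (List.range d).any (fun j => farB f d L K r t j)
        then (0 : ℝ) else 1) := by
    refine avg_mono _ _ _ fun r _ => ?_
    have hnn : ∀ t ∈ Finset.range M, (0 : ℝ) ≤ if (List.range d).any (fun j => farB f d L K r t j)
        then (0 : ℝ) else 1 := fun t _ => by split_ifs <;> norm_num
    split_ifs with hc
    · have := Finset.sum_nonneg hnn; linarith
    · simp only [chkB, List.all_eq_true, List.mem_range, not_forall] at hc
      obtain ⟨t, ht, ht'⟩ := hc
      have := Finset.single_le_sum hnn (Finset.mem_range.2 ht)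
      rw [if_neg ht'] at this; linarith
  rw [avg_const, avg_add, avg_sum] at h1
  have h2 := Finset.sum_le_sum (s := Finset.range M) fun t ht => h t (Finset.mem_range.1 ht)
  rw [Finset.sum_const, Finset.card_range, nsmul_eq_mul] at h2
  have h3 : (M : ℝ) * (1 / 2 ^ (M + 2)) ≤ 1 / 4 := by
    have : (M : ℝ) ≤ 2 ^ M := by exact_mod_cast Nat.lt_two_pow_self.le
    rw [mul_one_div, div_le_div_iff₀ (by positivity) (by norm_num), pow_add]
    linarith
  linarith

end Pool.Agent.P.MP_867493_lc
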