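import Mathlib
import Pool.Prelude.Def_H_3587d628

set_option autoImplicit false

namespace Pool.Agent.P.MP_867493_lc

open N487b59b3 N68a2faeb

/-- Value of a word: the letter `(i, true)` is the `i`-th generator, `(i, false)` its inverse
(an index beyond the list of generators stands for the identity). -/
def ev {G : Type} [Group G] (xs : List G) (w : List (ℕ × Bool)) : G :=
  (w.map fun l => if l.2 then xs.getD l.1 1 else (xs.getD l.1 1)⁻¹).prod

/-- The subset sum problem: some subsequence of the given words multiplies to the target. -/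
def SSP {G : Type} [Group G] (xs : List G) (I : List (List (ℕ × Bool)) × List (ℕ × Bool)) :
    Prop :=
  ∃ l : List (List (ℕ × Bool)), l.Sublist I.1 ∧ (l.map (ev xs)).prod = ev xs I.2

/-- Deterministic polynomial time. -/
def InP {α : Type} [N487b59b3 α] (Q : α → Prop) : Prop :=
  ∃ f : α → Bool, IsPolyTime f ∧ ∀ a, f a = true ↔ Q a

/-- Zero-error probabilistic polynomial time: the first output bit says that an answer is given,
the second is the answer. -/
def InZPP {α : Type} [N487b59b3 α] (Q : α → Prop) : Prop :=
  ∃ (p : Polynomial ℕ) (R : α × List Bool → Bool × Bool), IsPolyTime R ∧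
    (∀ a r, (R (a, r)).1 = true → ((R (a, r)).2 = true ↔ Q a)) ∧
    ∀ a, (1 : ℚ) / 2 ≤
      ((Finset.univ.filter fun r : Fin (p.eval (bitEncode a).length) → Bool =>
        (R (a, List.ofFn r)).1 = true).card : ℚ) / 2 ^ p.eval (bitEncode a).length

/-- The ball of radius `n` in the word metric. -/
def ball {G : Type} [Group G] (xs : List G) (n : ℕ) : Set G :=
  {g | ∃ w : List (ℕ × Bool), w.length ≤ n ∧ ev xs w = g}

/-- Polynomial growth, or exponential growth, or at least stretched exponential growth of the
quotient by the centre. -/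
def Tame {G : Type} [Group G] (xs : List G) : Prop :=
  (∃ q : Polynomial ℕ, ∀ n, (ball xs n).ncard ≤ q.eval n) ∨
  (∃ a : ℝ, 1 < a ∧ ∀ n, a ^ n ≤ (ball xs n).ncard) ∨
  (∃ a : ℝ, 0 < a ∧ ∀ᶠ n : ℕ in Filter.atTop, Real.exp ((n : ℝ) ^ a) ≤
    ((QuotientGroup.mk : G → G ⧸ Subgroup.center G) '' ball xs n).ncard)

end Pool.Agent.P.MP_867493_lc
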