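import Pool.Agent.P.MP_867493_lc.Free

/-! Encodings, running time and the final probability bound. -/

set_option autoImplicit false

namespace Pool.Agent.P.MP_867493_lc

open Pool.Agent.Lib.NP Polynomial Monoid N487b59b3 N68a2faeb

theorem pt_enc_word : PT (fun w : Wd => bitEncode w) := by
  have : PT (fun w : Wd => ((w.map fun l => delimit (Computability.encodeNat l.1) ++ [l.2]).map
      delimit).flatten) := by fun_prop
  exact this

theorem pt_enc_inst : PT (fun I : List Wd × Wd => bitEncode I) := by
  have h := pt_enc_word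
  have : PT (fun I : List Wd × Wd => delimit ((I.1.map fun w => bitEncode w).map
      delimit).flatten ++ bitEncode I.2) := by fun_prop
  exact this

theorem pt_of_isPolyTime {f : List Wd × Wd → Bool} (h : IsPolyTime f) : PT f := by
  obtain ⟨h⟩ := h
  obtain ⟨g, s0, out, C, hg, hs0, hout, hsz, hrun⟩ := exists_sim h.tm h.inputAlphabet.symm
    h.outputAlphabet.symm h.outputAlphabet.symm.injective
  have h1 : PT (fun x : List Bool => g^[h.time.eval x.length] (s0 x)) := by
    refine PT.iterate hg (by fun_prop) hs0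
      (Polynomial.C C * (Polynomial.X + h.time + 1)) fun x i hi => ?_
    refine (hsz _ _).trans ?_
    simp only [Polynomial.eval_mul, Polynomial.eval_C, Polynomial.eval_add, Polynomial.eval_X,
      Polynomial.eval_one]
    have h2 := length_le_sz x
    have h3 := eval_mono h.time h2
    exact Nat.mul_le_mul_left _ (by omega)
  refine (PT.headD ((hout.comp h1).comp pt_enc_inst) (PT.const false)).congr fun x => ?_
  have o := h.outputsFun x
  have := hrun (bitEncode x) [f x] o.steps o.evals_in_steps (h.time.eval (bitEncode x).length)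
    o.steps_le_m
  rw [this]; rfl

/-- The function `φ` can be computed in polynomial time from the binary encoding. -/
def Dec {α β : Type} [N487b59b3 α] [Enc β] (φ : α → β) : Prop :=
  ∃ D : List Bool → β, PT D ∧ ∀ a, D (bitEncode a) = φ a

section Dec

variable {α α' β β' : Type} [N487b59b3 α] [N487b59b3 α'] [Enc β] [Enc β']

theorem Dec.bool : Dec (fun b : Bool => b) := ⟨fun l => l.headD false, by fun_prop, fun _ => rfl⟩

theorem Dec.len : Dec (fun a : α => (bitEncode a).length) :=
  ⟨fun l => l.length, by fun_prop, fun _ => rfl⟩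

theorem Dec.nat (d : ℕ) : Dec (fun n : ℕ => min n d) := by
  refine ⟨fun l => ((List.range d).filter fun i => decide (Computability.encodeNat i = l)).headD d,
    by fun_prop, fun n => ?_⟩
  have h : ∀ i, Computability.encodeNat i = bitEncode n ↔ i = n :=
    fun i => (bitEncode_injective (α := ℕ)).eq_iff
  simp only [h]
  by_cases hn : n < d
  · rw [List.filter_eq, List.count_eq_one_of_mem List.nodup_range (List.mem_range.2 hn)]
    simp [hn.le]
  · rw [List.filter_eq, List.count_eq_zero_of_not_mem (by simpa using hn)]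
    simp [not_lt.1 hn]

theorem Dec.mk {φ : α → β} {ψ : α → β'} (h : Dec φ) (h' : Dec ψ) : Dec (fun a => (φ a, ψ a)) := by
  obtain ⟨D, h1, h2⟩ := h
  obtain ⟨D', h3, h4⟩ := h'
  exact ⟨fun l => (D l, D' l), h1.mk h3, fun a => by simp only [h2, h4]⟩

theorem Dec.prod {φ : α → β} {ψ : α' → β'} (h : Dec φ) (h' : Dec ψ) :
    Dec (fun a : α × α' => (φ a.1, ψ a.2)) := by
  obtain ⟨D, h1, h2⟩ := h
  obtain ⟨D', h3, h4⟩ := h'
  refine ⟨fun l => (D (l.foldl undStep (0, [], [])).2.1, D' (l.foldl undStep (0, [], [])).2.2),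
    (h1.comp pt_und.snd.fst).mk (h3.comp pt_und.snd.snd), ?_⟩
  rintro ⟨a, b⟩
  have : bitEncode (a, b) = delimit (bitEncode a) ++ bitEncode b := rfl
  simp only [this, undStep_delimit, List.nil_append, h2, h4]

theorem Dec.list {φ : α → β} (h : Dec φ) : Dec (fun l : List α => l.map φ) := by
  obtain ⟨D, h1, h2⟩ := h
  refine ⟨fun l => (l.foldl blkStep (false, [], [])).2.2.map D,
    PT.map (f := fun _ b => D b) (h1.comp (by fun_prop)) pt_blk.snd.snd, fun l => ?_⟩
  change (((l.map bitEncode).map delimit).flatten.foldl blkStep (false, [], [])).2.2.map D = _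
  rw [blkStep_blocks]
  simp [Function.comp_def, h2]

theorem Dec.isPolyTime {φ : α → β} (h : Dec φ) {F : β → Bool × Bool} (hF : PT F) :
    IsPolyTime (fun a => F (φ a)) := by
  obtain ⟨D, h1, h2⟩ := h
  have h3 : PTe (fun x : List Bool => x) (fun x => enc (F (D x))) :=
    (PTe.explode'.reindex fun a => ⟨a, rfl, by
      simp [enc, List.map_map, Function.comp_def]⟩).trans (hF.comp h1)
  have h4 : PTe (fun a : α => bitEncode a) (fun a => bitEncode (F (φ a))) :=
    h3.reindex fun a => ⟨bitEncode a, rfl, by rw [h2]; rfl⟩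
  exact h4.toTM2

end Dec

/-- Truncate the indices of the letters. -/
def clamp (d : ℕ) (I : List Wd × Wd) : List Wd × Wd :=
  (I.1.map fun w => w.map fun l => (min l.1 d, l.2), I.2.map fun l => (min l.1 d, l.2))

theorem dec_clamp (d : ℕ) : Dec (clamp d) :=
  ((Dec.nat d).prod Dec.bool).list.list.prod ((Dec.nat d).prod Dec.bool).list

theorem ssp_clamp {G : Type} [Group G] (zs : List G) (I : List Wd × Wd) :
    SSP zs (clamp zs.length I) ↔ SSP zs I := by
  have h : ∀ w : Wd, ev zs (w.map fun l => (min l.1 zs.length, l.2)) = ev zs w := by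
    intro w
    simp only [ev, List.map_map]
    refine congrArg _ (List.map_congr_left fun l _ => ?_)
    by_cases hl : l.1 ≤ zs.length
    · simp [hl]
    · simp [(not_le.1 hl).le]
  simp only [SSP, clamp, List.sublist_map_iff, h]
  constructor
  · rintro ⟨_, ⟨l, h1, rfl⟩, h2⟩
    exact ⟨l, h1, by simpa only [List.map_map, Function.comp_def, h] using h2⟩
  · rintro ⟨l, h1, h2⟩
    exact ⟨_, ⟨l, h1, rfl⟩, by simpa only [List.map_map, Function.comp_def, h] using h2⟩

variable {α : Type} [Enc α]

@[fun_prop] theorem pt_base {I : α → List Wd × Wd} (hI : PT I) : PT (fun a => base (I a)) := by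
  unfold base rowE; fun_prop

@[fun_prop] theorem pt_pairs {E : α → List Ed} (hE : PT E) : PT (fun a => pairs (E a)) := by
  unfold pairs; fun_prop

@[fun_prop] theorem pt_sideE (d : ℕ) (b : Bool) {E : α → List Ed} {T : α → List (Vx × Vx)}
    (hE : PT E) (hT : PT T) : PT (fun a => sideE d b (E a) (T a)) := by
  unfold sideE rel; fun_prop

theorem sz_sublist {β : Type} [Enc β] {l l' : List β} (h : l.Sublist l') : sz l ≤ sz l' := by
  induction h with
  | slnil => rfl
  | cons a _ ih => simp; omega
  | cons_cons a _ ih => simp; omega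

theorem pt_sat {G : Type} (xs : List G) {sG sH : α → Vx × Vx × List Ed → Bool}
    (hG : PT (fun x : α × Vx × Vx × List Ed => sG x.1 x.2))
    (hH : PT (fun x : α × Vx × Vx × List Ed => sH x.1 x.2)) {E : α → List Ed} (hE : PT E)
    {k : α → ℕ} (hk : PT k) :
    PT (fun a => (satStep xs.length (sG a) (sH a) (E a))^[k a] []) := by
  obtain ⟨r, hr⟩ := (pt_pairs hE).size
  refine (PT.foldl (f := fun a T (_ : ℕ) => satStep xs.length (sG a) (sH a) (E a) T)
    (s0 := fun _ => []) ?_ hk.range (PT.const _) r fun a i => ?_).congr fun a => by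
      rw [List.foldl_const, List.length_range]
  · unfold satStep
    refine PT.filter (PT.or (hG.comp (g := fun x : (α × List (Vx × Vx) × ℕ) × Vx × Vx =>
      (x.1.1, x.2.1, x.2.2, (List.replicate (E x.1.1).length
        (sideE xs.length true (E x.1.1) x.1.2.1)).flatten)) (by fun_prop))
      (hH.comp (g := fun x : (α × List (Vx × Vx) × ℕ) × Vx × Vx =>
      (x.1.1, x.2.1, x.2.2, (List.replicate (E x.1.1).length
        (sideE xs.length false (E x.1.1) x.1.2.1)).flatten)) (by fun_prop))) (by fun_prop)
  · rw [List.foldl_const]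
    exact (sz_sublist (sat_sub _)).trans (hr a)

theorem avg_two (a b c : ℕ) (f g : List Bool → Bool)
    (hf : 3 / 4 ≤ avg a (fun r => if f r then (1 : ℝ) else 0))
    (hg : 3 / 4 ≤ avg b (fun r => if g r then (1 : ℝ) else 0)) :
    1 / 2 ≤ avg (a + (b + c)) (fun r => if (f (r.take a) && g ((r.drop a).take b)) then (1 : ℝ)
      else 0) := by
  have h1 : avg (a + (b + c)) (fun r => if (f (r.take a) && g ((r.drop a).take b)) then (1 : ℝ)
      else 0) = avg a (fun x => (avg b (fun r => if g r then (1 : ℝ) else 0)) *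
        (if f x then (1 : ℝ) else 0)) := by
    rw [avg_append]
    refine avg_congr _ _ _ fun x hx => ?_
    rw [avg_append, mul_comm]
    have := avg_map (LinearMap.mulLeft ℝ (if f x then (1 : ℝ) else 0)) b
      (fun r => if g r then (1 : ℝ) else 0)
    simp only [LinearMap.mulLeft_apply] at this
    rw [this]
    refine avg_congr _ _ _ fun y hy => (avg_congr _ _ _ fun z _ => ?_).trans (avg_const _ _)
    rw [← hx, List.take_left, List.drop_left, ← hy, List.take_left]
    cases f x <;> cases g y <;> simp
  have := avg_map (LinearMap.mulLeft ℝ (avg b (fun r => if g r then (1 : ℝ) else 0))) a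
      (fun r => if f r then (1 : ℝ) else 0)
  simp only [LinearMap.mulLeft_apply] at this
  rw [h1, ← this]
  nlinarith

theorem inZPP_of_solvable {G H : Type} [Group G] [Group H] (xs : List G) (ys : List H)
    (hG : Solvable xs) (hH : Solvable ys) :
    InZPP (SSP (xs.map Coprod.inl ++ ys.map Coprod.inr : List (Coprod G H))) := by
  obtain ⟨lG, cG, sG, g1, g2, g3, g4, g5⟩ := hG
  obtain ⟨lH, cH, sH, h1, h2, h3, h4, h5⟩ := hH
  set zs : List (Coprod G H) := xs.map Coprod.inl ++ ys.map Coprod.inr with hzs
  obtain ⟨Q, hQ⟩ : ∃ Q : Polynomial ℕ, ∀ I, (base (clamp zs.length I)).length *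
      ((base (clamp zs.length I)).length + (base (clamp zs.length I)).length *
        (base (clamp zs.length I)).length) ≤ Q.eval (bitEncode I).length := by
    obtain ⟨D, k1, k2⟩ := dec_clamp zs.length
    have : PT (fun y => (base (D y)).length * ((base (D y)).length +
      (base (D y)).length * (base (D y)).length)) := by fun_prop
    obtain ⟨q, hq⟩ := this.size
    exact ⟨q.comp (3 * X), fun I => by simpa [k2, PT.sz_bits] using hq (bitEncode I)⟩
  obtain ⟨p, hp⟩ := ((g1.comp (PT.id'.polyEval Q)).add (h1.comp (PT.id'.polyEval Q))).size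
  simp only [sz_nat] at hp
  let A : (ℕ × List Wd × Wd) × List Bool → ℕ × List Bool := fun x =>
    (Q.eval x.1.1, x.2.take (lG (Q.eval x.1.1)))
  let B : (ℕ × List Wd × Wd) × List Bool → ℕ × List Bool := fun x =>
    (Q.eval x.1.1, (x.2.drop (lG (Q.eval x.1.1))).take (lH (Q.eval x.1.1)))
  have hA : PT A := by fun_prop
  have hB : PT B := by fun_prop
  have hF : PT (fun x : (ℕ × List Wd × Wd) × List Bool => (cG (A x) && cH (B x),
      decide (((0, 0), (x.1.2.1.length + 1, 0)) ∈ (satStep xs.length (fun y => sG (A x, y))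
        (fun y => sH (B x, y)) (base x.1.2))^[(base x.1.2).length + 1] []))) :=
    ((g2.comp hA).and (h2.comp hB)).mk (PT.decide_mem (by fun_prop) (pt_sat xs
      (g3.comp ((hA.comp PT.id'.fst).mk PT.id'.snd)) (h3.comp ((hB.comp PT.id'.fst).mk PT.id'.snd))
      (by fun_prop) (by fun_prop)))
  refine ⟨p, _, ((Dec.len.mk (dec_clamp zs.length)).prod Dec.bool.list).isPolyTime hF,
    fun I r hc => ?_, fun I => ?_⟩
  · simp only [Bool.and_eq_true] at hc
    rw [decide_eq_true_iff, ← ssp_clamp]
    exact ssp_free_iff xs ys _ (g4 _ _ hc.1) (h4 _ _ hc.2) (hQ I)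
  · obtain ⟨c, hc⟩ := Nat.exists_eq_add_of_le (hp (bitEncode I).length)
    have := avg_two _ _ c _ _ (g5 (Q.eval (bitEncode I).length)) (h5 (Q.eval (bitEncode I).length))
    rw [← add_assoc, ← hc, avg_eq_sum, Finset.sum_boole] at this
    simp only [A, B, List.map_id']
    rw [← Rat.cast_le (K := ℝ)]
    push_cast
    exact this

end Pool.Agent.P.MP_867493_lc
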