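import Pool.Agent.P.MP_867493_lc.Growth

/-! Subset sum in a free product via saturation with path solvers for the factors. -/

set_option autoImplicit false

namespace Pool.Agent.P.MP_867493_lc

open Pool.Agent.Lib.NP Polynomial Monoid

theorem exists_pure {K β : Type} [Group K] (side : β → Bool) (val : β → K) (L : List β)
    (hL : L ≠ [])
    (h : (L.map fun x => (CoprodI.of (M := fun _ : Bool => K) (i := side x) (val x))).prod = 1) :
    ∃ A B C b, L = A ++ B ++ C ∧ B ≠ [] ∧ (∀ x ∈ B, side x = b) ∧ (B.map val).prod = 1 := by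
  classical
  by_contra hno
  have key : ∀ L : List β, (¬ ∃ A B C b, L = A ++ B ++ C ∧ B ≠ [] ∧ (∀ x ∈ B, side x = b) ∧
      (B.map val).prod = 1) → ∃ l : List (Σ _ : Bool, K), (∀ x ∈ l, x.2 ≠ 1) ∧
      l.IsChain (fun a b => a.1 ≠ b.1) ∧
      (l.map fun x => (CoprodI.of (M := fun _ : Bool => K) (i := x.1) x.2)).prod =
        (L.map fun x => (CoprodI.of (M := fun _ : Bool => K) (i := side x) (val x))).prod ∧
      (L = [] ∧ l = [] ∨ ∃ B C b l', L = B ++ C ∧ B ≠ [] ∧ (∀ x ∈ B, side x = b) ∧
        l = ⟨b, (B.map val).prod⟩ :: l') := by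
    intro L
    induction L with
    | nil => exact fun _ => ⟨[], by simp, by simp, rfl, Or.inl ⟨rfl, rfl⟩⟩
    | cons a L ih =>
      intro hno
      obtain ⟨l, h1, h2, h3, h4⟩ := ih fun ⟨A, B, C, b, e, h⟩ =>
        hno ⟨a :: A, B, C, b, by simp [e], h⟩
      have ha : val a ≠ 1 := fun h => hno ⟨[], [a], L, side a, rfl, by simp, by simp, by simp [h]⟩
      have new : (∀ x ∈ l.head?, side a ≠ x.1) → ∃ l : List (Σ _ : Bool, K), (∀ x ∈ l, x.2 ≠ 1) ∧
          l.IsChain (fun a b => a.1 ≠ b.1) ∧
          (l.map fun x => (CoprodI.of (M := fun _ : Bool => K) (i := x.1) x.2)).prod =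
          ((a :: L).map fun x => (CoprodI.of (M := fun _ : Bool => K) (i := side x) (val x))).prod ∧
          (a :: L = [] ∧ l = [] ∨ ∃ B C b l', a :: L = B ++ C ∧ B ≠ [] ∧ (∀ x ∈ B, side x = b) ∧
            l = ⟨b, (B.map val).prod⟩ :: l') := fun hh =>
        ⟨⟨side a, val a⟩ :: l, by simpa [ha] using h1, List.isChain_cons.2 ⟨hh, h2⟩, by simp [h3],
          Or.inr ⟨[a], L, side a, l, rfl, by simp, by simp, by simp⟩⟩
      rcases h4 with ⟨-, rfl⟩ | ⟨B, C, b, l', rfl, hB, hB', rfl⟩
      · exact new (by simp)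
      by_cases hb : side a = b
      · subst hb
        refine ⟨⟨side a, ((a :: B).map val).prod⟩ :: l', ?_, ?_, ?_,
          Or.inr ⟨a :: B, C, side a, l', rfl, by simp, by simpa using hB', rfl⟩⟩
        · intro x hx
          rcases List.mem_cons.1 hx with rfl | hx
          · exact fun h => hno ⟨[], a :: B, C, side a, rfl, by simp, by simpa using hB', h⟩
          · exact h1 x (List.mem_cons_of_mem _ hx)
        · exact List.isChain_cons.2 (List.isChain_cons.1 h2)
        · rw [List.map_cons (l := B ++ C), List.prod_cons, ← h3]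
          simp [mul_assoc]
      · exact new (by simpa using hb)
  obtain ⟨l, h1, h2, h3, h4⟩ := key L hno
  have := (CoprodI.Word.equiv (M := fun _ : Bool => K)).symm.injective
    (a₁ := ⟨l, h1, h2⟩) (a₂ := CoprodI.Word.empty) (h3.trans h)
  have hl : l = [] := congrArg CoprodI.Word.toList this
  rcases h4 with ⟨h, -⟩ | ⟨B, C, b, l', -, -, -, h⟩
  · exact hL h
  · simp [hl] at h

/-- Walks with their number of edges and their label. -/
inductive Walk (E : List Ed) (u : Vx) : Vx → ℕ → Wd → Prop
  | nil : Walk E u u 0 []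
  | snoc {n : ℕ} {w : Wd} (e : Ed) : e ∈ E → Walk E u e.1 n w → Walk E u e.2.1 (n + 1) (w ++ e.2.2)

theorem Walk.trans {E : List Ed} {u v x : Vx} {n m : ℕ} {w w' : Wd} (h : Walk E u v n w)
    (h' : Walk E v x m w') : Walk E u x (n + m) (w ++ w') := by
  induction h' with
  | nil => simpa using h
  | snoc e he _ ih => simpa only [List.append_assoc, Nat.add_assoc] using Walk.snoc e he ih

theorem Walk.single {E : List Ed} {e : Ed} (he : e ∈ E) : Walk E e.1 e.2.1 1 e.2.2 :=
  Walk.snoc e he Walk.nil

theorem Walk.mono {E E' : List Ed} (hE : E ⊆ E') {u v : Vx} {n : ℕ} {w : Wd}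
    (h : Walk E u v n w) : Walk E' u v n w := by
  induction h with
  | nil => exact .nil
  | snoc e he _ ih => exact .snoc e (hE he) ih

theorem Walk.split {E : List Ed} (hE : ∀ e ∈ E, e.2.2.length ≤ 1) {u v : Vx} {n : ℕ} {w : Wd}
    (h : Walk E u v n w) (A B : Wd) (hw : w = A ++ B) :
    ∃ x n1 n2, Walk E u x n1 A ∧ Walk E x v n2 B ∧ n1 + n2 = n := by
  induction h generalizing B with
  | nil =>
    obtain ⟨rfl, rfl⟩ : A = [] ∧ B = [] := by simpa using hw
    exact ⟨u, 0, 0, .nil, .nil, rfl⟩
  | @snoc n w e he h ih =>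
    rcases List.append_eq_append_iff.1 hw with ⟨c, rfl, h2⟩ | ⟨c, rfl, rfl⟩
    · have := hE e he
      rcases c with _ | ⟨a, c⟩
      · exact ⟨_, n, 1, by simpa using h, by simpa [h2] using Walk.single he, rfl⟩
      · obtain ⟨rfl, rfl⟩ : c = [] ∧ B = [] := by
          rw [h2] at this; simpa using this
        exact ⟨_, n + 1, 0, by simpa [h2] using Walk.snoc e he h, .nil, rfl⟩
    · obtain ⟨x, n1, n2, h1, h2, rfl⟩ := ih c rfl
      exact ⟨x, n1, n2 + 1, h1, .snoc e he h2, rfl⟩

theorem Walk.ends {E : List Ed} {u v : Vx} {n : ℕ} {w : Wd} (h : Walk E u v n w) :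
    (n = 0 ∧ w = [] ∧ u = v) ∨ (1 ≤ n ∧ u ∈ E.map (·.1) ∧ v ∈ E.map (·.2.1)) := by
  induction h with
  | nil => simp
  | snoc e he _ ih =>
    refine Or.inr ⟨by omega, ?_, List.mem_map_of_mem he⟩
    rcases ih with ⟨-, -, rfl⟩ | ⟨-, h, -⟩
    exacts [List.mem_map_of_mem he, h]

variable {G H : Type} [Group G] [Group H] (xs : List G) (ys : List H)

theorem DP_append (s v : Vx) (E E' : List Ed) (h : G) (hh : h ∈ DP xs s E v) :
    h ∈ DP xs s (E ++ E') v := by
  induction E' using List.reverseRecOn with
  | nil => simpa using hh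
  | append_singleton E' e ih => rw [← List.append_assoc, mem_DP_snoc]; exact Or.inl ih

theorem Walk.mem_DP {F : List Ed} {u v : Vx} {n : ℕ} {w : Wd} (h : Walk F u v n w) (R : ℕ)
    (hR : n ≤ R) : ev xs w ∈ DP xs u (List.replicate R F).flatten v := by
  obtain ⟨m, rfl⟩ := Nat.exists_eq_add_of_le hR
  rw [List.replicate_add, List.flatten_append]
  apply DP_append
  clear hR
  induction h with
  | nil => exact ⟨rfl, rfl⟩
  | @snoc n w e he _ ih =>
    obtain ⟨F1, F2, hF⟩ := List.append_of_mem he
    have : (List.replicate (n + 1) F).flatten =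
        (((List.replicate n F).flatten ++ F1) ++ [e]) ++ F2 := by
      rw [List.replicate_succ', List.flatten_append]; simp [← hF]
    rw [this]
    apply DP_append
    rw [mem_DP_snoc]
    exact Or.inr ⟨rfl, by simpa using DP_append xs _ _ _ F1 _ ih⟩

theorem DP_sound {Γ : Type} [Group Γ] (φ : G →* Γ) (P : Vx → Set Γ) (F : List Ed)
    (hF : ∀ e ∈ F, ∀ x ∈ P e.1, x * φ (ev xs e.2.2) ∈ P e.2.1) (s v : Vx) (h : G)
    (hh : h ∈ DP xs s F v) : ∀ x ∈ P s, x * φ h ∈ P v := by
  induction F using List.reverseRecOn generalizing v h with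
  | nil => obtain ⟨rfl, rfl⟩ := hh; simp
  | append_singleton F e ih =>
    have ih := ih fun e he => hF e (List.mem_append_left _ he)
    rcases (mem_DP_snoc xs s F e v h).1 hh with h1 | ⟨rfl, h1⟩
    · exact ih v h h1
    · intro x hx
      simpa [mul_assoc] using hF e (by simp) _ (ih _ _ h1 x hx)

/-- Renumber the letters of one factor. -/
def rel (d : ℕ) (b : Bool) (w : Wd) : Wd := w.map fun l => (bif b then l.1 else l.1 - d, l.2)

/-- The edges of one factor, together with the empty edges found so far. -/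
def sideE (d : ℕ) (b : Bool) (E : List Ed) (T : List (Vx × Vx)) : List Ed :=
  ((E.filter fun e => e.2.2.all fun l => decide (l.1 < d) == b).map
    fun e => (e.1, e.2.1, rel d b e.2.2)) ++ T.map fun x => (x.1, x.2, [])

def pairs (E : List Ed) : List (Vx × Vx) := E.flatMap fun e => E.map fun e' => (e.1, e'.2.1)

def satStep (d : ℕ) (sG sH : Vx × Vx × List Ed → Bool) (E : List Ed) (T : List (Vx × Vx)) :
    List (Vx × Vx) :=
  (pairs E).filter fun x => sG (x.1, x.2, (List.replicate E.length (sideE d true E T)).flatten) ||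
    sH (x.1, x.2, (List.replicate E.length (sideE d false E T)).flatten)

theorem ev_rel_true (w : Wd) (hw : ∀ l ∈ w, decide (l.1 < xs.length) = true) :
    ev (xs.map Coprod.inl ++ ys.map Coprod.inr) w = Coprod.inl (ev xs (rel xs.length true w)) := by
  simp only [ev, rel, map_list_prod, List.map_map]
  refine congrArg _ (List.map_congr_left fun l hl => ?_)
  have : l.1 < xs.length := by simpa using hw l hl
  cases h : l.2 <;> simp [h, this, List.getElem?_append_left]

theorem ev_rel_false (w : Wd) (hw : ∀ l ∈ w, decide (l.1 < xs.length) = false) :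
    ev (xs.map Coprod.inl ++ ys.map Coprod.inr) w = Coprod.inr (ev ys (rel xs.length false w)) := by
  simp only [ev, rel, map_list_prod, List.map_map]
  refine congrArg _ (List.map_congr_left fun l hl => ?_)
  have : xs.length ≤ l.1 := by simpa using hw l hl
  cases h : l.2 <;> cases h' : ys[l.1 - xs.length]? <;>
    simp [h, h', this, List.getElem?_append_right]

theorem Walk.side {d : ℕ} {b : Bool} {E : List Ed} {T : List (Vx × Vx)} {u v : Vx} {n : ℕ}
    {w : Wd} (h : Walk (E ++ T.map fun x => (x.1, x.2, [])) u v n w)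
    (hw : ∀ l ∈ w, decide (l.1 < d) = b) : Walk (sideE d b E T) u v n (rel d b w) := by
  induction h with
  | nil => exact .nil
  | @snoc n w e he _ ih =>
    have ih := ih fun l hl => hw l (List.mem_append_left _ hl)
    have : (e.1, e.2.1, rel d b e.2.2) ∈ sideE d b E T := by
      rcases List.mem_append.1 he with h | h
      · exact List.mem_append_left _ (List.mem_map_of_mem (List.mem_filter.2 ⟨h, by
          simpa using fun a c hl => hw (a, c) (List.mem_append_right _ hl)⟩))
      · obtain ⟨x, hx, rfl⟩ := List.mem_map.1 h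
        exact List.mem_append_right _ h
    simpa only [rel, List.map_append] using Walk.snoc _ this ih

theorem free_pure (w : Wd) (hw : w ≠ [])
    (h : ev (xs.map Coprod.inl ++ ys.map Coprod.inr) w = 1) :
    ∃ A B C b, w = A ++ B ++ C ∧ B ≠ [] ∧ (∀ l ∈ B, decide (l.1 < xs.length) = b) ∧
      ev (xs.map Coprod.inl ++ ys.map Coprod.inr) B = 1 := by
  let zs := xs.map Coprod.inl ++ ys.map Coprod.inr
  let φ : Coprod G H →* CoprodI fun _ : Bool => G × H :=
    Coprod.lift ((CoprodI.of (M := fun _ : Bool => G × H) (i := true)).comp (MonoidHom.inl G H))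
      ((CoprodI.of (M := fun _ : Bool => G × H) (i := false)).comp (MonoidHom.inr G H))
  have e : ∀ w : Wd, ev zs w = (w.map fun l => ev zs [l]).prod := fun w => by simp [ev]
  obtain ⟨A, B, C, b, h1, h2, h3, h4⟩ := exists_pure (fun l : ℕ × Bool => decide (l.1 < xs.length))
    (fun l => Coprod.toProd (ev zs [l])) w hw (by
      rw [← map_one φ, ← h, e, map_list_prod, List.map_map]
      refine congrArg _ (List.map_congr_left fun l _ => ?_)
      cases hl : decide (l.1 < xs.length)
      · simp only [Function.comp, zs, ev_rel_false xs ys [l] (by simpa using hl)]; simp [φ]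
      · simp only [Function.comp, zs, ev_rel_true xs ys [l] (by simpa using hl)]; simp [φ])
  refine ⟨A, B, C, b, h1, h2, h3, ?_⟩
  have h5 : Coprod.toProd (ev zs B) = 1 := by
    rw [e, map_list_prod, List.map_map]; exact h4
  cases b
  · rw [ev_rel_false xs ys B h3] at h5 ⊢
    rw [show ev ys (rel xs.length false B) = 1 by simpa using h5, map_one]
  · rw [ev_rel_true xs ys B h3] at h5 ⊢
    rw [show ev xs (rel xs.length true B) = 1 by simpa using h5, map_one]

theorem mem_pairs {E : List Ed} {u v : Vx} :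
    (u, v) ∈ pairs E ↔ u ∈ E.map (·.1) ∧ v ∈ E.map (·.2.1) := by
  simp only [pairs, List.mem_flatMap, List.mem_map, Prod.mk.injEq]
  constructor
  · rintro ⟨e, he, e', he', h1, h2⟩; exact ⟨⟨e, he, h1⟩, e', he', h2⟩
  · rintro ⟨⟨e, he, h1⟩, e', he', h2⟩; exact ⟨e, he, e', he', h1, h2⟩

theorem lab_le (E : List Ed) (hE : ∀ e ∈ E, e.2.2.length ≤ 1) : lab E ≤ E.length := by
  simpa [lab] using List.sum_le_card_nsmul (E.map fun e => e.2.2.length) 1
    (List.forall_mem_map.2 hE)

section Sat

variable {xs ys} {sG sH : Vx × Vx × List Ed → Bool} {E : List Ed} {N : ℕ}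
  (hG : ∀ s t F, F.length ≤ N → lab F ≤ N → (sG (s, t, F) = true ↔ (1 : G) ∈ DP xs s F t))
  (hH : ∀ s t F, F.length ≤ N → lab F ≤ N → (sH (s, t, F) = true ↔ (1 : H) ∈ DP ys s F t))
  (hE : ∀ e ∈ E, e.2.2.length ≤ 1) (hN : E.length * (E.length + E.length * E.length) ≤ N)

include hG hH hE hN

theorem mem_satStep (T : List (Vx × Vx)) (hT : T.Sublist (pairs E)) (u v : Vx) :
    (u, v) ∈ satStep xs.length sG sH E T ↔ (u, v) ∈ pairs E ∧
      ((1 : G) ∈ DP xs u (List.replicate E.length (sideE xs.length true E T)).flatten v ∨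
       (1 : H) ∈ DP ys u (List.replicate E.length (sideE xs.length false E T)).flatten v) := by
  have h1 : ∀ b, (List.replicate E.length (sideE xs.length b E T)).flatten.length ≤ N := by
    intro b
    refine le_trans ?_ hN
    have h2 := hT.length_le
    have h3 := List.length_filter_le (fun e : Ed => e.2.2.all fun l => decide (l.1 < xs.length) == b) E
    simp only [pairs, List.length_flatMap, List.length_map, List.map_const', List.sum_replicate,
      smul_eq_mul] at h2
    simp only [List.length_flatten, List.map_replicate, List.sum_replicate, smul_eq_mul, sideE,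
      List.length_append, List.length_map]
    exact Nat.mul_le_mul_left _ (by omega)
  have h2 : ∀ b, lab (List.replicate E.length (sideE xs.length b E T)).flatten ≤ N := by
    refine fun b => (lab_le _ fun e he => ?_).trans (h1 b)
    simp only [List.mem_flatten, List.mem_replicate, sideE] at he
    obtain ⟨_, ⟨-, rfl⟩, he⟩ := he
    rcases List.mem_append.1 he with h | h
    · obtain ⟨e', he', rfl⟩ := List.mem_map.1 h
      simpa [rel] using hE e' (List.mem_filter.1 he').1
    · obtain ⟨e', he', rfl⟩ := List.mem_map.1 h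
      simp
  rw [satStep, List.mem_filter, Bool.or_eq_true, hG _ _ _ (h1 _) (h2 _), hH _ _ _ (h1 _) (h2 _)]

omit hG hH hE hN [Group G] in
theorem sat_sub (k : ℕ) : ((satStep xs.length sG sH E)^[k] []).Sublist (pairs E) := by
  cases k with
  | zero => simp
  | succ k => rw [Function.iterate_succ_apply']; exact List.filter_sublist

theorem sat_sound (P : Vx → Set (Coprod G H))
    (hP : ∀ e ∈ E, ∀ x ∈ P e.1, x * ev (xs.map Coprod.inl ++ ys.map Coprod.inr) e.2.2 ∈ P e.2.1)
    (k : ℕ) (u v : Vx) (h : (u, v) ∈ (satStep xs.length sG sH E)^[k] []) : P u ⊆ P v := by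
  induction k generalizing u v with
  | zero => simp at h
  | succ k ih =>
    rw [Function.iterate_succ_apply', mem_satStep hG hH hE hN _ (sat_sub k)] at h
    rcases h.2 with h | h
    · intro x hx
      refine (mul_one x) ▸ (map_one (Coprod.inl : G →* Coprod G H)) ▸
        DP_sound xs Coprod.inl P _ (fun e he => ?_) u v 1 h x hx
      simp only [List.mem_flatten, List.mem_replicate, sideE] at he
      obtain ⟨_, ⟨-, rfl⟩, he⟩ := he
      rcases List.mem_append.1 he with h | h
      · obtain ⟨e', he', rfl⟩ := List.mem_map.1 h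
        obtain ⟨h1, h2⟩ := List.mem_filter.1 he'
        rw [← ev_rel_true xs ys _ (by simpa using h2)]
        exact hP e' h1
      · obtain ⟨e', he', rfl⟩ := List.mem_map.1 h
        exact fun x hx => by simpa using ih _ _ he' hx
    · intro x hx
      refine (mul_one x) ▸ (map_one (Coprod.inr : H →* Coprod G H)) ▸
        DP_sound ys Coprod.inr P _ (fun e he => ?_) u v 1 h x hx
      simp only [List.mem_flatten, List.mem_replicate, sideE] at he
      obtain ⟨_, ⟨-, rfl⟩, he⟩ := he
      rcases List.mem_append.1 he with h | h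
      · obtain ⟨e', he', rfl⟩ := List.mem_map.1 h
        obtain ⟨h1, h2⟩ := List.mem_filter.1 he'
        rw [← ev_rel_false xs ys _ (by simpa using h2)]
        exact hP e' h1
      · obtain ⟨e', he', rfl⟩ := List.mem_map.1 h
        exact fun x hx => by simpa using ih _ _ he' hx

theorem sat_pure (k : ℕ) {u v : Vx} {n : ℕ} {w : Wd} (b : Bool)
    (h : Walk (E ++ ((satStep xs.length sG sH E)^[k] []).map fun x => (x.1, x.2, [])) u v n w)
    (hn : 1 ≤ n) (hn' : n ≤ E.length) (hw : ∀ l ∈ w, decide (l.1 < xs.length) = b)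
    (h1 : ev (xs.map Coprod.inl ++ ys.map Coprod.inr) w = 1) :
    (u, v) ∈ (satStep xs.length sG sH E)^[k + 1] [] := by
  rw [Function.iterate_succ_apply', mem_satStep hG hH hE hN _ (sat_sub k)]
  constructor
  · rcases h.ends with h | ⟨-, h2, h3⟩
    · omega
    · simp only [List.map_append, List.mem_append, List.map_map] at h2 h3
      refine mem_pairs.2 ⟨h2.elim id fun h => ?_, h3.elim id fun h => ?_⟩
      · obtain ⟨x, hx, rfl⟩ := List.mem_map.1 h
        exact (mem_pairs.1 ((sat_sub k).subset hx)).1
      · obtain ⟨x, hx, rfl⟩ := List.mem_map.1 h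
        exact (mem_pairs.1 ((sat_sub k).subset hx)).2
  · cases b
    · rw [ev_rel_false xs ys w hw, map_eq_one_iff _ Coprod.inr_injective] at h1
      exact Or.inr (h1 ▸ (h.side hw).mem_DP ys _ hn')
    · rw [ev_rel_true xs ys w hw, map_eq_one_iff _ Coprod.inl_injective] at h1
      exact Or.inl (h1 ▸ (h.side hw).mem_DP xs _ hn')

theorem sat_mono (hE0 : 1 ≤ E.length) {k k' : ℕ} (hk : k ≤ k') :
    (satStep xs.length sG sH E)^[k] [] ⊆ (satStep xs.length sG sH E)^[k'] [] := by
  induction hk with
  | refl => exact List.Subset.refl _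
  | @step m _ ih =>
    refine List.Subset.trans ih fun x hx => sat_pure hG hH hE hN m true (w := []) (n := 1)
      (Walk.single (e := (x.1, x.2, [])) (List.mem_append_right _ (List.mem_map_of_mem hx)))
      le_rfl hE0 (by simp) rfl

theorem sat_complete (m : ℕ) : ∀ (k : ℕ) {u v : Vx} {n : ℕ} {w : Wd},
    Walk (E ++ ((satStep xs.length sG sH E)^[k] []).map fun x => (x.1, x.2, [])) u v n w →
    1 ≤ n → n ≤ E.length → w.length ≤ m → ev (xs.map Coprod.inl ++ ys.map Coprod.inr) w = 1 →
    (u, v) ∈ (satStep xs.length sG sH E)^[k + m + 1] [] := by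
  induction m with
  | zero =>
    intro k u v n w h hn hn' hw h1
    obtain rfl : w = [] := by simpa using hw
    exact sat_pure hG hH hE hN k true h hn hn' (by simp) h1
  | succ m ih =>
    intro k u v n w h hn hn' hw h1
    by_cases hw0 : w = []
    · subst hw0
      exact sat_mono hG hH hE hN (by omega) (by omega)
        (sat_pure hG hH hE hN k true h hn hn' (by simp) h1)
    obtain ⟨A, B, C, b, rfl, hB, hB1, hB2⟩ := free_pure xs ys w hw0 h1
    have hE' : ∀ e ∈ E ++ ((satStep xs.length sG sH E)^[k] []).map fun x => (x.1, x.2, []),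
        e.2.2.length ≤ 1 := by
      intro e he
      rcases List.mem_append.1 he with h | h
      · exact hE e h
      · obtain ⟨x, -, rfl⟩ := List.mem_map.1 h; simp
    obtain ⟨y, n12, n3, h12, h3, rfl⟩ := h.split hE' _ _ rfl
    obtain ⟨x, n1, n2, h1', h2, rfl⟩ := h12.split hE' _ _ rfl
    have hn2 : 1 ≤ n2 := by
      rcases h2.ends with h | h
      · exact absurd h.2.1 hB
      · exact h.1
    have hxy := sat_pure hG hH hE hN k b h2 hn2 (by omega) hB1 hB2
    have hsub := List.append_subset.2 ⟨List.subset_append_left E _,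
      List.subset_append_of_subset_right E (List.map_subset (fun x : Vx × Vx => ((x.1, x.2, []) : Ed))
        (sat_mono hG hH hE hN (by omega) (Nat.le_succ k)))⟩
    have := ih (k + 1) (((h1'.mono hsub).trans (Walk.single (e := (x, y, []))
      (List.mem_append_right _ (List.mem_map_of_mem hxy)))).trans (h3.mono hsub)) (by omega)
      (by omega) (by
        have := List.length_pos_iff.2 hB
        simp only [List.length_append, List.length_nil] at hw ⊢; omega)
      (by simpa [hB2] using h1)
    rwa [show k + (m + 1) + 1 = k + 1 + m + 1 by omega]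

end Sat

/-- The edges that read the word `w` in row `j`. -/
def rowE (j : ℕ) (w : Wd) : List Ed :=
  ((List.range w.length).map fun o => ((j, o), (j, o + 1), (w.drop o).take 1)) ++
    [((j, w.length), (j + 1, 0), [])]

/-- The graph of a subset sum instance. -/
def base (I : List Wd × Wd) : List Ed :=
  ((List.range (I.1.length + 1)).flatMap fun j => rowE j ((I.1 ++ [invW I.2]).getD j [])) ++
    (List.range I.1.length).map fun j => ((j, 0), (j + 1, 0), [])

theorem base_lab (I : List Wd × Wd) : ∀ e ∈ base I, e.2.2.length ≤ 1 := by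
  intro e he
  simp only [base, rowE, List.mem_append, List.mem_flatMap, List.mem_map, List.mem_singleton] at he
  rcases he with ⟨j, -, ⟨o, -, rfl⟩ | rfl⟩ | ⟨j, -, rfl⟩ <;> simp

theorem walk_row {E : List Ed} (j : ℕ) (w : Wd) (h : rowE j w ⊆ E) :
    Walk E (j, 0) (j + 1, 0) (rowE j w).length w := by
  have : ∀ o ≤ w.length, Walk E (j, 0) (j, o) o (w.take o) := by
    intro o
    induction o with
    | zero => exact fun _ => .nil
    | succ o ih =>
      intro ho
      rw [List.take_add]
      exact .snoc ((j, o), (j, o + 1), (w.drop o).take 1) (h (List.mem_append_left _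
        (List.mem_map_of_mem (List.mem_range.2 ho)))) (ih (by omega))
  simpa [rowE] using Walk.snoc ((j, w.length), (j + 1, 0), []) (h (by simp [rowE]))
    (this _ le_rfl)

theorem walk_base (I : List Wd × Wd) (l : List Wd) (hl : l.Sublist I.1) :
    ∃ n, 1 ≤ n ∧ n ≤ (base I).length ∧ (l.flatten ++ invW I.2).length ≤ n ∧
      Walk (base I) (0, 0) (I.1.length + 1, 0) n (l.flatten ++ invW I.2) := by
  have hrow : ∀ j ≤ I.1.length, rowE j ((I.1 ++ [invW I.2]).getD j []) ⊆ base I := fun j hj e he =>
    List.mem_append_left _ (List.mem_flatMap.2 ⟨j, List.mem_range.2 (by omega), he⟩)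
  have hlen : ∀ j w, (rowE j w).length = w.length + 1 := fun j w => by simp [rowE]
  have key : ∀ j ≤ I.1.length, ∀ l : List Wd, l.Sublist (I.1.take j) → ∃ n, n ≤
      ((List.range j).flatMap fun j => rowE j ((I.1 ++ [invW I.2]).getD j [])).length ∧
      l.flatten.length ≤ n ∧ Walk (base I) (0, 0) (j, 0) n l.flatten := by
    intro j
    induction j with
    | zero =>
      intro _ l hl
      obtain rfl : l = [] := by simpa using hl
      exact ⟨0, by simp, by simp, .nil⟩
    | succ j ih =>
      intro hj l hl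
      rw [List.take_succ_eq_append_getElem hj, List.sublist_append_iff] at hl
      obtain ⟨l1, l2, rfl, h1, h2⟩ := hl
      obtain ⟨n, hn, hn', hw⟩ := ih (by omega) l1 h1
      have e : (I.1 ++ [invW I.2]).getD j [] = I.1[j] := by
        simp [List.getElem?_append_left hj, List.getElem?_eq_getElem hj]
      rw [List.range_succ, List.flatMap_append, List.length_append, List.flatMap_singleton, e]
      rcases List.sublist_singleton.1 h2 with rfl | rfl
      · refine ⟨n + 1, by rw [hlen]; omega, by simp only [List.append_nil]; omega, ?_⟩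
        simpa using Walk.snoc (E := base I) ((j, 0), (j + 1, 0), []) (List.mem_append_right _
          (List.mem_map.2 ⟨j, List.mem_range.2 hj, rfl⟩)) hw
      · refine ⟨n + (rowE j I.1[j]).length, by omega, by simp [hlen] at hn' ⊢; omega, ?_⟩
        simpa using hw.trans (walk_row j _ (e ▸ hrow j (by omega)))
  obtain ⟨n, hn, hn', hw⟩ := key _ le_rfl l (by simpa using hl)
  have e : (I.1 ++ [invW I.2]).getD I.1.length [] = invW I.2 := by simp
  refine ⟨n + (rowE I.1.length (invW I.2)).length, by rw [hlen]; omega, ?_,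
    by rw [hlen, List.length_append]; omega, hw.trans (walk_row _ _ (e ▸ hrow _ le_rfl))⟩
  rw [base, List.range_succ, List.flatMap_append, List.length_append, List.length_append,
    List.flatMap_singleton, e]
  omega

theorem ev_flatten (l : List Wd) : ev xs l.flatten = (l.map (ev xs)).prod := by
  induction l with
  | nil => rfl
  | cons a l ih => simp [ih]

theorem base_inv (I : List Wd × Wd) : ∃ P : Vx → Set G, (∀ e ∈ base I, ∀ x ∈ P e.1,
    x * ev xs e.2.2 ∈ P e.2.1) ∧ 1 ∈ P (0, 0) ∧ (1 ∈ P (I.1.length + 1, 0) → SSP xs I) := by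
  refine ⟨fun u => {x | ∃ l : List Wd, l.Sublist (I.1.take u.1) ∧ x = (l.map (ev xs)).prod *
    if u.1 ≤ I.1.length then ev xs (((I.1 ++ [invW I.2]).getD u.1 []).take u.2)
    else (ev xs I.2)⁻¹}, ?_, ⟨[], by simp, by simp⟩, ?_⟩
  · rintro e he _ ⟨l, hl, rfl⟩
    simp only [base, rowE, List.mem_append, List.mem_flatMap, List.mem_map, List.mem_singleton,
      List.mem_range] at he
    rcases he with ⟨j, hj, ⟨o, -, rfl⟩ | rfl⟩ | ⟨j, hj, rfl⟩
    · refine ⟨l, hl, ?_⟩
      simp only [show j ≤ I.1.length by omega, if_true, List.take_add, ev_append, mul_assoc]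
    · rcases (Nat.lt_succ_iff.1 hj).lt_or_eq with hj | rfl
      · refine ⟨l ++ [I.1[j]], ?_, ?_⟩
        · rw [List.take_succ_eq_append_getElem hj]; exact hl.append (.refl _)
        · simp [hj.le, Nat.succ_le_of_lt hj, List.getElem_append_left hj]
      · refine ⟨l, hl.trans (List.take_sublist_take_left (Nat.le_succ _)), ?_⟩
        simp only [List.take_length]; simp
    · refine ⟨l, hl.trans (List.take_sublist_take_left (Nat.le_succ j)), ?_⟩
      simp [hj.le, Nat.succ_le_of_lt hj]
  · rintro ⟨l, hl, h⟩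
    exact ⟨l, hl.trans (List.take_sublist _ _), by simpa [mul_inv_eq_one] using h.symm⟩

theorem ssp_free_iff {sG sH : Vx × Vx × List Ed → Bool} {N : ℕ} (I : List Wd × Wd)
    (hG : ∀ s t F, F.length ≤ N → lab F ≤ N → (sG (s, t, F) = true ↔ (1 : G) ∈ DP xs s F t))
    (hH : ∀ s t F, F.length ≤ N → lab F ≤ N → (sH (s, t, F) = true ↔ (1 : H) ∈ DP ys s F t))
    (hN : (base I).length * ((base I).length + (base I).length * (base I).length) ≤ N) :
    ((0, 0), (I.1.length + 1, 0)) ∈ (satStep xs.length sG sH (base I))^[(base I).length + 1] [] ↔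
      SSP (xs.map Coprod.inl ++ ys.map Coprod.inr) I := by
  constructor
  · intro h
    obtain ⟨P, h1, h2, h3⟩ := base_inv (xs.map Coprod.inl ++ ys.map Coprod.inr) I
    exact h3 (sat_sound hG hH (base_lab I) hN P h1 _ _ _ h h2)
  · rintro ⟨l, hl, h⟩
    obtain ⟨n, h1, h2, h3, h4⟩ := walk_base I l hl
    simpa using sat_complete hG hH (base_lab I) hN (base I).length 0 (by simpa using h4) h1 h2
      (h3.trans h2) (by simp [ev_flatten, h])

end Pool.Agent.P.MP_867493_lc
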