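import Pool.Agent.P.MP_867493_lc.Solve

/-! Every tame group with a polynomial-time subset sum oracle has a path solver. -/

set_option autoImplicit false

namespace Pool.Agent.P.MP_867493_lc

open Pool.Agent.Lib.NP Polynomial Pointwise
open scoped IsMulCommutative

variable {G : Type} [Group G] (xs : List G)

theorem growth_of_stretched (γ : ℕ → ℕ) (a : ℝ) (ha : 0 < a)
    (h : ∀ᶠ n : ℕ in Filter.atTop, Real.exp ((n : ℝ) ^ a) ≤ γ n) :
    ∃ q : Polynomial ℕ, ∀ h, 2 ^ h ≤ γ (q.eval h) := by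
  obtain ⟨n0, hn0⟩ := Filter.eventually_atTop.1 h
  obtain ⟨k, hk⟩ := exists_nat_ge (1 / a)
  have hk1 : (1 : ℝ) ≤ ((k + 1 : ℕ) : ℝ) * a := by
    rw [div_le_iff₀ ha] at hk; push_cast; nlinarith
  refine ⟨(X + C (n0 + 1)) ^ (k + 1), fun h => ?_⟩
  simp only [eval_pow, eval_add, eval_X, eval_C]
  have h1 := hn0 ((h + (n0 + 1)) ^ (k + 1))
    (le_trans (by omega) (Nat.le_self_pow (by omega) (h + (n0 + 1))))
  have h2 : (h : ℝ) ≤ (((h + (n0 + 1)) ^ (k + 1) : ℕ) : ℝ) ^ a := by
    have h3 : (1 : ℝ) ≤ ((h + (n0 + 1) : ℕ) : ℝ) := by exact_mod_cast (by omega)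
    rw [Nat.cast_pow, ← Real.rpow_natCast, ← Real.rpow_mul (by positivity)]
    refine le_trans ?_ (Real.self_le_rpow_of_one_le h3 hk1)
    exact_mod_cast (by omega)
  have h4 : (2 : ℝ) ^ h ≤ Real.exp h := by
    rw [← mul_one (h : ℝ), Real.exp_nat_mul]
    exact pow_le_pow_left₀ (by norm_num) (by linarith [Real.add_one_le_exp 1]) h
  exact_mod_cast h4.trans ((Real.exp_le_exp.2 h2).trans h1)

theorem quotient_growth (a : ℝ) (ha : 1 < a) (h : ∀ n, a ^ n ≤ (ball xs n).ncard) (ρ : ℕ) :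
    a ^ ρ ≤ ((QuotientGroup.mk : G → G ⧸ Subgroup.center G) '' ball xs ρ).ncard := by
  classical
  have hfin := ball_finite xs ρ
  have hfin' := hfin.image (QuotientGroup.mk : G → G ⧸ Subgroup.center G)
  have hz : ∀ g : G, (QuotientGroup.mk g : G ⧸ Subgroup.center G).out⁻¹ * g ∈ Subgroup.center G :=
    fun g => QuotientGroup.eq.1 (QuotientGroup.out_eq' _)
  let T : Finset G := hfin'.toFinset.image Quotient.out
  let Z : Finset (Subgroup.center G) := hfin.toFinset.image fun g => ⟨_, hz g⟩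
  have key : ∀ m, ∀ g ∈ ball xs (ρ * m), ∃ t ∈ T ^ m, ∃ k : Z → ℕ, (∀ z, k z ≤ m) ∧
      g = t * ((∏ z : Z, z.1 ^ k z : Subgroup.center G) : G) := by
    intro m
    induction m with
    | zero =>
      rintro _ ⟨w, hw, rfl⟩
      exact ⟨1, by simp, 0, by simp, by simp_all⟩
    | succ m ih =>
      rintro _ ⟨w, hw, rfl⟩
      obtain ⟨t, ht, k, hk, he⟩ := ih (ev xs (w.drop ρ)) ⟨_, by simp; nlinarith, rfl⟩
      have hg : ev xs (w.take ρ) ∈ ball xs ρ := ⟨_, by simp, rfl⟩
      let z0 : Z := ⟨⟨_, hz (ev xs (w.take ρ))⟩,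
        Finset.mem_image.2 ⟨_, hfin.mem_toFinset.2 hg, rfl⟩⟩
      refine ⟨(QuotientGroup.mk (ev xs (w.take ρ)) : G ⧸ Subgroup.center G).out * t, ?_,
        fun z => (if z = z0 then 1 else 0) + k z, fun z => by
          have := hk z; dsimp only; split_ifs <;> omega, ?_⟩
      · rw [pow_succ']
        exact Finset.mul_mem_mul (Finset.mem_image.2 ⟨_, hfin'.mem_toFinset.2 ⟨_, hg, rfl⟩, rfl⟩) ht
      · simp only [pow_add, Finset.prod_mul_distrib, pow_ite, pow_one, pow_zero,
          Finset.prod_ite_eq', Finset.mem_univ, if_true, Subgroup.coe_mul]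
        have e : ev xs w = ev xs (w.take ρ) * ev xs (w.drop ρ) := by
          rw [← ev_append, List.take_append_drop]
        rw [e, he, ← mul_assoc (_ * t), mul_assoc _ t, Subgroup.mem_center_iff.1 z0.1.2 t]
        simp only [z0]; group
  have hb : ∀ m, a ^ (ρ * m) ≤ (hfin'.toFinset.card : ℝ) ^ m * (m + 1) ^ Z.card := by
    intro m
    refine (h _).trans ?_
    have h1 : ball xs (ρ * m) ⊆ ↑(((T ^ m) ×ˢ Fintype.piFinset fun _ : Z => Finset.range (m + 1)).image
        fun x => x.1 * ((∏ z : Z, z.1 ^ x.2 z : Subgroup.center G) : G)) := by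
      intro g hg
      obtain ⟨t, ht, k, hk, he⟩ := key m g hg
      exact Finset.mem_coe.2 (Finset.mem_image.2 ⟨(t, k), Finset.mem_product.2
        ⟨ht, by simpa [Nat.lt_succ_iff] using hk⟩, he.symm⟩)
    have h2 := Set.ncard_le_ncard h1 (Finset.finite_toSet _)
    rw [Set.ncard_coe_finset] at h2
    have h3 := h2.trans Finset.card_image_le
    rw [Finset.card_product, Fintype.card_piFinset] at h3
    simp only [Finset.card_range, Finset.prod_const, Finset.card_univ, Fintype.card_coe] at h3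
    have h4 := h3.trans (Nat.mul_le_mul_right _ (Finset.card_pow_le.trans
      (Nat.pow_le_pow_left Finset.card_image_le m)))
    exact_mod_cast h4
  rw [Set.ncard_eq_toFinset_card _ hfin']
  have hpos : (0 : ℝ) < hfin'.toFinset.card := by
    exact_mod_cast Finset.card_pos.2 ⟨_, hfin'.mem_toFinset.2 ⟨1, ⟨[], by simp, rfl⟩, rfl⟩⟩
  generalize (hfin'.toFinset.card : ℝ) = γ at hb hpos
  by_contra hlt
  have hb1 : 1 < a ^ ρ / γ := (one_lt_div hpos).2 (not_le.1 hlt)
  have := (tendsto_pow_const_div_const_pow_of_one_lt Z.card hb1).eventually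
    (gt_mem_nhds (show 0 < 1 / (a ^ ρ / γ) by positivity))
  obtain ⟨n0, hn0⟩ := Filter.eventually_atTop.1 this
  have h1 := hn0 (n0 + 1) (by omega)
  have h2 := hb n0
  rw [div_lt_div_iff₀ (by positivity) (by positivity), one_mul, pow_succ,
    mul_lt_mul_iff_left₀ (by positivity), div_pow, lt_div_iff₀ (by positivity), ← pow_mul] at h1
  push_cast at h1
  linarith [mul_comm (γ ^ n0) (((n0 : ℝ) + 1) ^ Z.card)]

theorem Tame.solvable (hxs : Subgroup.closure {x | x ∈ xs} = ⊤) (ht : Tame xs)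
    (f : List Wd × Wd → Bool) (hf : ∀ I, f I = true ↔ SSP xs I) (hpt : PT f) : Solvable xs := by
  rcases ht with ⟨q, hq⟩ | ⟨a, ha, h⟩ | ⟨a, ha, h⟩
  · exact solvable_of_poly xs f hf hpt q hq
  · obtain ⟨k, hk⟩ := pow_unbounded_of_one_lt 2 ha
    refine solvable_of_growth xs hxs f hf hpt (C k * X) fun n => ?_
    have h1 := quotient_growth xs a ha h (k * n)
    rw [pow_mul] at h1
    simp only [eval_mul, eval_C, eval_X]
    exact_mod_cast (pow_le_pow_left₀ (by norm_num) hk.le n).trans h1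
  · obtain ⟨q, hq⟩ := growth_of_stretched _ a ha h
    exact solvable_of_growth xs hxs f hf hpt q hq

end Pool.Agent.P.MP_867493_lc
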