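import Mathlib

/-! Averages over bit strings and the decay of random subproducts in a group. -/

set_option autoImplicit false

namespace Pool.Agent.P.MP_867493_lc

open scoped RealInnerProductSpace

section Avg

variable {E F : Type} [AddCommGroup E] [Module ℝ E] [AddCommGroup F] [Module ℝ F]

/-- Average over all bit strings of length `n`. -/
noncomputable def avg : ℕ → (List Bool → E) → E
  | 0, f => f []
  | n + 1, f => (1 / 2 : ℝ) • (avg n (fun r => f (false :: r)) + avg n (fun r => f (true :: r)))

theorem avg_map (φ : E →ₗ[ℝ] F) (n : ℕ) (f : List Bool → E) :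
    φ (avg n f) = avg n (fun r => φ (f r)) := by
  induction n generalizing f with
  | zero => rfl
  | succ n ih => simp only [avg, map_smul, map_add, ih]

theorem avg_const (n : ℕ) (c : E) : avg n (fun _ => c) = c := by
  induction n with
  | zero => rfl
  | succ n ih =>
    simp only [avg, ih]
    rw [← two_smul ℝ c, smul_smul]; norm_num

theorem avg_add (n : ℕ) (f g : List Bool → E) :
    avg n (fun r => f r + g r) = avg n f + avg n g := by
  induction n generalizing f g with
  | zero => rfl
  | succ n ih => simp only [avg, ih, smul_add]; abel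

theorem avg_sum {ι : Type} (s : Finset ι) (n : ℕ) (f : ι → List Bool → E) :
    avg n (fun r => ∑ i ∈ s, f i r) = ∑ i ∈ s, avg n (f i) := by
  classical
  induction s using Finset.induction_on with
  | empty => simp [avg_const]
  | insert a s ha ih => simp only [Finset.sum_insert ha, avg_add, ih]

theorem avg_mono (n : ℕ) (f g : List Bool → ℝ) (h : ∀ r, r.length = n → f r ≤ g r) :
    avg n f ≤ avg n g := by
  induction n generalizing f g with
  | zero => exact h [] rfl
  | succ n ih =>
    simp only [avg, smul_eq_mul]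
    have h1 := ih (fun r => f (false :: r)) (fun r => g (false :: r))
      (fun r hr => h _ (by simp [hr]))
    have h2 := ih (fun r => f (true :: r)) (fun r => g (true :: r))
      (fun r hr => h _ (by simp [hr]))
    linarith

theorem avg_congr (n : ℕ) (f g : List Bool → E) (h : ∀ r, r.length = n → f r = g r) :
    avg n f = avg n g := by
  induction n generalizing f g with
  | zero => exact h [] rfl
  | succ n ih =>
    simp only [avg]
    rw [ih (fun r => f (false :: r)) (fun r => g (false :: r)) (fun r hr => h _ (by simp [hr])),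
      ih (fun r => f (true :: r)) (fun r => g (true :: r)) (fun r hr => h _ (by simp [hr]))]

theorem avg_append (a b : ℕ) (f : List Bool → E) :
    avg (a + b) f = avg a (fun x => avg b (fun y => f (x ++ y))) := by
  induction a generalizing f with
  | zero => simp [avg]
  | succ a ih =>
    rw [show a + 1 + b = (a + b) + 1 by omega]
    simp only [avg, ih, List.cons_append]

theorem avg_eq_sum (n : ℕ) (f : List Bool → ℝ) :
    avg n f = (∑ r : Fin n → Bool, f (List.ofFn r)) / 2 ^ n := by
  induction n generalizing f with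
  | zero => simp [avg]
  | succ n ih =>
    simp only [avg, ih, smul_eq_mul]
    rw [← (Fin.consEquiv fun _ : Fin (n + 1) => Bool).sum_comp, Fintype.sum_prod_type]
    simp [Fin.consEquiv, List.ofFn_succ]
    ring

end Avg

/-- The subsequence selected by a bit string. -/
def msk {α : Type} : List α → List Bool → List α
  | a :: c, b :: r => bif b then a :: msk c r else msk c r
  | _, _ => []

theorem msk_map {α β : Type} (f : α → β) (c : List α) (r : List Bool) :
    (msk c r).map f = msk (c.map f) r := by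
  induction c generalizing r with
  | nil => simp [msk]
  | cons a c ih =>
    cases r with
    | nil => simp [msk]
    | cons b r => cases b <;> simp [msk, ih]

theorem msk_length_le {α : Type} (c : List α) (r : List Bool) : (msk c r).length ≤ c.length := by
  induction c generalizing r with
  | nil => simp [msk]
  | cons a c ih =>
    cases r with
    | nil => simp [msk]
    | cons b r => have := ih r; cases b <;> simp [msk] <;> omega

/-- A product of at most `k` elements of `c` or their inverses. -/
def IsProd {Q : Type} [Group Q] (c : List Q) (k : ℕ) (g : Q) : Prop :=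
  ∃ l : List Q, l.length ≤ k ∧ (∀ a ∈ l, a ∈ c ∨ a⁻¹ ∈ c) ∧ l.prod = g

section Model

variable (Q : Type)

noncomputable def ipB : (Q →₀ ℝ) →ₗ[ℝ] (Q →₀ ℝ) →ₗ[ℝ] ℝ :=
  Finsupp.lsum ℝ fun x => LinearMap.smulRight LinearMap.id (Finsupp.lapply x)

theorem ipB_single (x : Q) (a : ℝ) (g : Q →₀ ℝ) : ipB Q (Finsupp.single x a) g = a * g x := by
  simp [ipB]

theorem ipB_symm (f g : Q →₀ ℝ) : ipB Q f g = ipB Q g f := by
  classical
  induction f using Finsupp.induction_linear with
  | zero => simp
  | add f f' h h' => simp [h, h']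
  | single x a =>
    induction g using Finsupp.induction_linear with
    | zero => simp
    | add g g' h h' => simp only [map_add, LinearMap.add_apply, h, h']
    | single y b =>
      simp only [ipB_single, Finsupp.single_apply]
      by_cases h : x = y
      · simp [h, mul_comm]
      · simp [h, Ne.symm h]

theorem ipB_nonneg (f : Q →₀ ℝ) : 0 ≤ ipB Q f f := by
  simp only [ipB, Finsupp.lsum_apply, Finsupp.sum, LinearMap.coe_sum, Finset.sum_apply]
  exact Finset.sum_nonneg fun x _ => by simpa using mul_self_nonneg (f x)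

@[instance_reducible]
noncomputable def fsCore : PreInnerProductSpace.Core ℝ (Q →₀ ℝ) where
  inner f g := ipB Q f g
  conj_inner_symm f g := by simpa using ipB_symm Q g f
  re_inner_nonneg f := by simpa using ipB_nonneg Q f
  add_left f g h := by simp
  smul_left f g r := by simp

theorem exists_model [Group Q] [DecidableEq Q] : ∃ (E : Type) (_ : SeminormedAddCommGroup E)
    (_ : InnerProductSpace ℝ E) (δ : Q → E) (L : Q → E →ₗᵢ[ℝ] E),
    (∀ a b, ⟪δ a, δ b⟫ = if a = b then 1 else 0) ∧ (∀ g q, L g (δ q) = δ (g * q)) ∧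
    (∀ g h x, L (g * h) x = L g (L h x)) ∧ ∀ x, L 1 x = x := by
  let := fsCore Q
  let : SeminormedAddCommGroup (Q →₀ ℝ) := InnerProductSpace.Core.toSeminormedAddCommGroup (𝕜 := ℝ)
  let : InnerProductSpace ℝ (Q →₀ ℝ) := InnerProductSpace.ofCore (fsCore Q)
  let T : Q → (Q →₀ ℝ) →ₗ[ℝ] (Q →₀ ℝ) := fun g => Finsupp.lmapDomain ℝ ℝ (fun q => g * q)
  have hT : ∀ g (f f' : Q →₀ ℝ), ipB Q (T g f) (T g f') = ipB Q f f' := by
    intro g f f'
    change ipB Q (Finsupp.mapDomain _ f) (Finsupp.mapDomain _ f') = _
    induction f using Finsupp.induction_linear with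
    | zero => simp
    | add f f' h h' => simp only [Finsupp.mapDomain_add, map_add, LinearMap.add_apply, h, h']
    | single x a =>
      rw [Finsupp.mapDomain_single, ipB_single, ipB_single,
        Finsupp.mapDomain_apply (mul_right_injective g)]
  refine ⟨(Q →₀ ℝ), inferInstance, inferInstance, fun q => Finsupp.single q 1,
    fun g => (T g).isometryOfInner (hT g), fun a b => ?_, fun g q => ?_, fun g h x => ?_,
    fun x => ?_⟩
  · change ipB Q _ _ = _
    rw [ipB_single, Finsupp.single_apply]
    by_cases h : a = b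
    · simp [h]
    · simp [h, Ne.symm h]
  · exact Finsupp.mapDomain_single
  · change Finsupp.mapDomain _ x = Finsupp.mapDomain _ (Finsupp.mapDomain _ x)
    rw [← Finsupp.mapDomain_comp]
    congr 1; funext q; simp [mul_assoc]
  · change Finsupp.mapDomain _ x = x
    simp only [one_mul]
    exact Finsupp.mapDomain_id

end Model

section Decay

variable {Q E : Type} [Group Q] [SeminormedAddCommGroup E] [InnerProductSpace ℝ E]

/-- The averaging operator of a list of group elements. -/
noncomputable def avOp (L : Q → E →ₗᵢ[ℝ] E) : List Q → E → E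
  | [], x => x
  | s :: c, x => (1 / 2 : ℝ) • (avOp L c x + L s (avOp L c x))

omit [Group Q] in
theorem avOp_append (L : Q → E →ₗᵢ[ℝ] E) (c c' : List Q) (x : E) :
    avOp L (c ++ c') x = avOp L c (avOp L c' x) := by
  induction c with
  | nil => rfl
  | cons s c ih => simp only [List.cons_append, avOp, ih]

theorem avOp_avg (L : Q → E →ₗᵢ[ℝ] E) (δ : Q → E) (h : ∀ g q, L g (δ q) = δ (g * q))
    (c : List Q) : avOp L c (δ 1) = avg c.length (fun r => δ (msk c r).prod) := by
  induction c with
  | nil => simp [avOp, avg, msk]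
  | cons s c ih =>
    simp only [avOp, avg, List.length_cons, msk, ih, cond_false, cond_true, List.prod_cons]
    congr 2
    have := avg_map (L s).toLinearMap c.length (fun r => δ (msk c r).prod)
    simpa [h] using this

omit [Group Q] in
theorem energy (L : Q → E →ₗᵢ[ℝ] E) (c : List Q) (x : E) : ∃ S1 S2 : ℝ, 0 ≤ S1 ∧ 0 ≤ S2 ∧
    ‖x‖ ^ 2 - ‖avOp L c x‖ ^ 2 = S2 / 4 ∧ ‖x - avOp L c x‖ ≤ S1 / 2 ∧
    (∀ s ∈ c, ‖x - L s x‖ ≤ S1) ∧ S1 ^ 2 ≤ c.length * S2 := by
  induction c with
  | nil => exact ⟨0, 0, le_rfl, le_rfl, by simp [avOp], by simp [avOp], by simp, by simp⟩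
  | cons s c ih =>
    obtain ⟨S1, S2, h0, hS2, h1, h2, h3, h4⟩ := ih
    set y := avOp L c x with hy
    have hd : 0 ≤ ‖y - L s y‖ := norm_nonneg _
    refine ⟨S1 + ‖y - L s y‖, S2 + ‖y - L s y‖ ^ 2, by positivity, by positivity, ?_, ?_, ?_, ?_⟩
    · have hp := parallelogram_law_with_norm ℝ y (L s y)
      simp only [avOp, ← hy, norm_smul, (L s).norm_map] at hp ⊢
      norm_num
      nlinarith
    · have e : x - avOp L (s :: c) x = (x - y) + (1 / 2 : ℝ) • (y - L s y) := by
        simp only [avOp, ← hy]
        module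
      rw [e]
      refine (norm_add_le _ _).trans ?_
      rw [norm_smul]
      norm_num
      linarith
    · intro t ht
      rcases List.mem_cons.1 ht with rfl | ht
      · have e : x - L t x = (x - y) + (y - L t y) - L t (x - y) := by
          rw [map_sub]; abel
        rw [e]
        refine (norm_sub_le _ _).trans ?_
        rw [(L t).norm_map]
        have := norm_add_le (x - y) (y - L t y)
        linarith
      · linarith [h3 t ht]
    · simp only [List.length_cons, Nat.cast_add, Nat.cast_one]
      have hn : (0 : ℝ) ≤ c.length := Nat.cast_nonneg _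
      generalize (c.length : ℝ) = n at *
      generalize ‖y - L s y‖ = d at *
      rcases hn.eq_or_lt with hn0 | hn0
      · have : S1 = 0 := by rw [← hn0] at h4; nlinarith
        rw [this, ← hn0]; nlinarith
      · have : 2 * S1 * d ≤ S2 + n * d ^ 2 := by
          refine le_of_mul_le_mul_left ?_ hn0
          nlinarith [sq_nonneg (S1 - n * d)]
        nlinarith

theorem poincare (L : Q → E →ₗᵢ[ℝ] E) (hm : ∀ g h x, L (g * h) x = L g (L h x))
    (h1 : ∀ x, L 1 x = x) (c : List Q) (x : E) (D : ℝ) (hD0 : 0 ≤ D)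
    (hD : ∀ s ∈ c, ‖x - L s x‖ ≤ D) (k : ℕ) (g : Q) (hg : IsProd c k g) :
    ‖x - L g x‖ ≤ k * D := by
  obtain ⟨l, hl, hl', rfl⟩ := hg
  refine le_trans ?_ (mul_le_mul_of_nonneg_right (Nat.cast_le.2 hl) hD0)
  clear hl
  induction l with
  | nil => simp [h1]
  | cons a l ih =>
    have h2 := ih fun b hb => hl' b (by simp [hb])
    have h3 : ‖x - L a x‖ ≤ D := by
      rcases hl' a (by simp) with h | h
      · exact hD a h
      · have := hD _ h
        rwa [← (L a).norm_map, map_sub, ← hm, mul_inv_cancel, h1, norm_sub_rev] at this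
    have e : x - L (a :: l).prod x = (x - L a x) + L a (x - L l.prod x) := by
      rw [List.prod_cons, hm, map_sub]; abel
    rw [e]
    refine (norm_add_le _ _).trans ?_
    rw [(L a).norm_map]
    simp only [List.length_cons, Nat.cast_add, Nat.cast_one]
    linarith

theorem one_sub_pow_le (a : ℕ) (ha : 1 ≤ a) : (1 - 1 / (a : ℝ)) ^ a ≤ 1 / 2 := by
  have ha' : (1 : ℝ) ≤ a := by exact_mod_cast ha
  have h0 : (0 : ℝ) ≤ 1 / a := by positivity
  have h1 : 1 / (a : ℝ) ≤ 1 := by rw [div_le_one (by positivity)]; exact ha'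
  have h2 : (1 : ℝ) + a * (1 / a) ≤ (1 + 1 / a) ^ a := one_add_mul_le_pow (by linarith) a
  rw [mul_one_div_cancel (by positivity)] at h2
  have h3 : (1 - 1 / (a : ℝ)) ^ a * (1 + 1 / a) ^ a ≤ 1 := by
    rw [← mul_pow]
    exact pow_le_one₀ (by nlinarith) (by nlinarith)
  have h4 : 0 ≤ (1 - 1 / (a : ℝ)) ^ a := pow_nonneg (by linarith) _
  nlinarith

end Decay

/-- A random subproduct of `c ^ m` rarely lies in a small set, if the group is large. -/
theorem walk_bound {Q : Type} [Group Q] [DecidableEq Q] (c : List Q) (hc : 1 ≤ c.length)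
    (ρ : ℕ) (hρ : 1 ≤ ρ) (h : ℕ) (Ω : Finset Q) (hΩ : 2 ^ h ≤ Ω.card)
    (hΩ' : ∀ g ∈ Ω, IsProd c ρ g) (Bad : Finset Q) :
    (avg (2 * ρ ^ 2 * c.length * h * c.length) (fun r =>
      if (msk (List.replicate (2 * ρ ^ 2 * c.length * h) c).flatten r).prod ∈ Bad
        then (1 : ℝ) else 0)) ^ 2 ≤ Bad.card * (2 / 2 ^ h) := by
  obtain ⟨E, _, _, δ, L, hδ, hL, hm, h1⟩ := exists_model Q
  set a := 2 * ρ ^ 2 * c.length with ha
  have ha1 : 1 ≤ a := by rw [ha]; nlinarith [Nat.one_le_pow 2 ρ hρ]
  have hV : (0 : ℝ) < Ω.card := by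
    have : 0 < Ω.card := lt_of_lt_of_le (by positivity) hΩ
    exact_mod_cast this
  have step : ∀ c' : List Q, ‖avOp L c (avOp L c' (δ 1))‖ ^ 2 - 1 / Ω.card ≤
      (‖avOp L c' (δ 1)‖ ^ 2 - 1 / Ω.card) * (1 - 1 / a) := by
    intro c'
    set x := avOp L c' (δ 1) with hx
    obtain ⟨S1, S2, h0, hS2, e1, -, e3, e4⟩ := energy L c x
    have hs : ∑ g ∈ Ω, ⟪x, L g x⟫ ≤ 1 := by
      have ex := avOp_avg L δ hL c'
      have e5 : ∀ g, ⟪x, L g x⟫ = avg c'.length (fun r => avg c'.length (fun r' =>
          if (msk c' r).prod = g * (msk c' r').prod then (1 : ℝ) else 0)) := by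
        intro g
        have e6 := avg_map (innerₗ E (L g x)) c'.length (fun r => δ (msk c' r).prod)
        rw [← ex, ← hx] at e6
        rw [real_inner_comm, ← innerₗ_apply_apply, e6]
        refine avg_congr _ _ _ fun r _ => ?_
        have e7 := avg_map ((innerₗ E (δ (msk c' r).prod)).comp (L g).toLinearMap) c'.length
          (fun r => δ (msk c' r).prod)
        rw [← ex, ← hx] at e7
        simpa [hL, hδ, real_inner_comm] using e7
      simp only [e5]
      rw [← avg_sum]
      refine (avg_mono _ _ _ fun r _ => ?_).trans (avg_const c'.length (1 : ℝ)).le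
      rw [← avg_sum]
      refine (avg_mono _ _ _ fun r' _ => ?_).trans (avg_const c'.length (1 : ℝ)).le
      simp only [← mul_inv_eq_iff_eq_mul, Finset.sum_ite_eq]
      split_ifs <;> norm_num
    have hg : ∀ g ∈ Ω, 2 * ‖x‖ ^ 2 - 2 * ⟪x, L g x⟫ ≤ (ρ * S1) ^ 2 := by
      intro g hg
      have e8 := poincare L hm h1 c x S1 h0 e3 ρ g (hΩ' g hg)
      have e9 := norm_sub_sq_real x (L g x)
      rw [(L g).norm_map] at e9
      have := pow_le_pow_left₀ (norm_nonneg _) e8 2
      linarith
    have hsum := Finset.sum_le_sum hg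
    simp only [Finset.sum_sub_distrib, Finset.sum_const, nsmul_eq_mul, ← Finset.mul_sum] at hsum
    have ha' : (a : ℝ) = 2 * ρ ^ 2 * c.length := by rw [ha]; push_cast; ring
    have ha0 : (0 : ℝ) < a := by exact_mod_cast ha1
    have e10 : ‖x‖ ^ 2 - 1 / Ω.card ≤ a * (S2 / 4) := by
      have e11 : (ρ * S1) ^ 2 ≤ 2 * (a * (S2 / 4)) := by
        rw [ha', mul_pow]; nlinarith [sq_nonneg (ρ : ℝ)]
      rw [sub_le_iff_le_add, ← sub_le_iff_le_add', le_div_iff₀ hV]
      nlinarith
    have e12 : (‖x‖ ^ 2 - 1 / Ω.card) * (1 / a) ≤ S2 / 4 := by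
      rw [mul_one_div, div_le_iff₀ ha0]; linarith
    nlinarith
  have hq0 : (0 : ℝ) ≤ 1 - 1 / a := by
    have : (1 : ℝ) ≤ a := by exact_mod_cast ha1
    rw [sub_nonneg, div_le_one (by positivity)]; exact this
  have dec : ∀ m, ‖avOp L (List.replicate m c).flatten (δ 1)‖ ^ 2 - 1 / Ω.card ≤
      (1 - 1 / (a : ℝ)) ^ m := by
    intro m
    induction m with
    | zero =>
      have := hδ 1 1
      rw [real_inner_self_eq_norm_sq] at this
      simp only [List.replicate_zero, List.flatten_nil, avOp, this, pow_zero]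
      simp
    | succ m ih =>
      rw [List.replicate_succ, List.flatten_cons, avOp_append, pow_succ]
      exact (step _).trans (mul_le_mul_of_nonneg_right ih hq0)
  have hfin : ‖avOp L (List.replicate (a * h) c).flatten (δ 1)‖ ^ 2 ≤ 2 / 2 ^ h := by
    have e1 := dec (a * h)
    rw [pow_mul] at e1
    have e2 := pow_le_pow_left₀ (pow_nonneg hq0 a) (one_sub_pow_le a ha1) h
    have e3 : 1 / (Ω.card : ℝ) ≤ 1 / 2 ^ h :=
      one_div_le_one_div_of_le (by positivity) (by exact_mod_cast hΩ)
    rw [div_pow, one_pow] at e2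
    have : (2 : ℝ) / 2 ^ h = 1 / 2 ^ h + 1 / 2 ^ h := by ring
    linarith
  set C := (List.replicate (a * h) c).flatten with hC
  have hlen : C.length = a * h * c.length := by simp [hC]
  have ex := avOp_avg L δ hL C
  have e1 := avg_map (innerₗ E (∑ b ∈ Bad, δ b)) C.length (fun r => δ (msk C r).prod)
  rw [← ex] at e1
  simp only [innerₗ_apply_apply, sum_inner, hδ, Finset.sum_ite_eq'] at e1
  rw [← hlen, ← e1, ← sum_inner]
  have e2 : ‖∑ b ∈ Bad, δ b‖ ^ 2 = Bad.card := by
    rw [← real_inner_self_eq_norm_sq, sum_inner]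
    simp only [inner_sum, hδ, Finset.sum_ite_eq]
    rw [Finset.sum_congr rfl (g := fun _ => (1 : ℝ)) fun b hb => if_pos hb]
    simp
  have e3 := abs_real_inner_le_norm (∑ b ∈ Bad, δ b) (avOp L C (δ 1))
  have e4 := pow_le_pow_left₀ (abs_nonneg _) e3 2
  rw [sq_abs, mul_pow, e2] at e4
  exact e4.trans (mul_le_mul_of_nonneg_left hfin (Nat.cast_nonneg _))

end Pool.Agent.P.MP_867493_lc
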