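import Pool.Agent.P.MP_867493_lc.Defs
import Pool.Agent.P.MP_867493_lc.Walk

/-! Reduction of the path problem in labelled graphs to subset sum, given control elements. -/

set_option autoImplicit false

namespace Pool.Agent.P.MP_867493_lc

abbrev Wd := List (ℕ × Bool)
abbrev Vx := ℕ × ℕ
abbrev Ed := Vx × Vx × Wd

/-- Formal inverse of a word. -/
def invW (w : Wd) : Wd := (w.map fun l => (l.1, !l.2)).reverse

variable {G : Type} [Group G] (xs : List G)

@[simp] theorem ev_nil : ev xs [] = 1 := rfl

@[simp] theorem ev_append (w w' : Wd) : ev xs (w ++ w') = ev xs w * ev xs w' := by simp [ev]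

theorem ev_cons (l : ℕ × Bool) (w : Wd) : ev xs (l :: w) = ev xs [l] * ev xs w :=
  ev_append xs [l] w

@[simp] theorem ev_invW (w : Wd) : ev xs (invW w) = (ev xs w)⁻¹ := by
  induction w with
  | nil => simp [invW]
  | cons l w ih =>
    have : invW (l :: w) = invW w ++ [(l.1, !l.2)] := by simp [invW]
    rw [this, ev_append, ih, ev_cons xs l w, mul_inv_rev]
    rcases l with ⟨i, b⟩
    cases b <;> simp [ev]

@[simp] theorem length_invW (w : Wd) : (invW w).length = w.length := by simp [invW]

/-- Values of the walks from `s` that use the edges in the order of the list. -/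
def DP (s : Vx) (E : List Ed) : Vx → Set G :=
  E.foldl (fun S e v => {h | h ∈ S v ∨ (v = e.2.1 ∧ h * (ev xs e.2.2)⁻¹ ∈ S e.1)})
    (fun v => {h | v = s ∧ h = 1})

theorem mem_DP_nil (s v : Vx) (h : G) : h ∈ DP xs s [] v ↔ v = s ∧ h = 1 := Iff.rfl

theorem mem_DP_snoc (s : Vx) (E : List Ed) (e : Ed) (v : Vx) (h : G) :
    h ∈ DP xs s (E ++ [e]) v ↔
      h ∈ DP xs s E v ∨ (v = e.2.1 ∧ h * (ev xs e.2.2)⁻¹ ∈ DP xs s E e.1) := by
  simp only [DP, List.foldl_append, List.foldl_cons, List.foldl_nil]; rfl

/-- Total length of the labels. -/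
def lab (E : List Ed) : ℕ := (E.map fun e => e.2.2.length).sum

/-- One more than the index of the last edge into `v` (zero if there is none). -/
def ver (E : List Ed) (v : Vx) : ℕ :=
  (List.range E.length).countP fun k => (E.drop k).any fun e => decide (e.2.1 = v)

theorem ver_le (E : List Ed) (v : Vx) : ver E v ≤ E.length :=
  List.countP_le_length.trans (by simp)

theorem ver_snoc (E : List Ed) (e : Ed) (v : Vx) :
    ver (E ++ [e]) v = if e.2.1 = v then E.length + 1 else ver E v := by
  unfold ver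
  split_ifs with h
  · rw [List.countP_eq_length.2]
    · simp
    · intro k hk
      have hk : k ≤ E.length := by simpa [Nat.lt_succ_iff] using hk
      simp [List.drop_append_of_le_length hk, h]
  · rw [List.length_append, List.length_singleton, List.range_succ, List.countP_append]
    simp only [List.drop_left, List.countP_singleton, List.any_cons, h, decide_false, List.any_nil,
      Bool.or_self, Bool.false_eq_true, if_false, add_zero]
    refine List.countP_congr fun k hk => ?_
    have hk : k ≤ E.length := (List.mem_range.1 hk).le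
    simp [List.drop_append_of_le_length hk, h]

section

variable (d : ℕ) (p : ℕ → Wd) (sel : ℕ → ℕ × ℕ × ℕ) (s : Vx)

/-- The current token of the vertex `v`. -/
def tok (E : List Ed) (v : Vx) : Wd :=
  if ver E v = 0 then (if v = s then [] else p 0) else p (ver E v * (d + 2))

theorem tok_snoc (E : List Ed) (e : Ed) (v : Vx) : tok d p s (E ++ [e]) v =
    if e.2.1 = v then p ((E.length + 1) * (d + 2)) else tok d p s E v := by
  unfold tok
  rw [ver_snoc]
  split_ifs <;> simp_all

/-- The four optional words simulating the edge `e` that follows the edges `E`. -/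
def gadget (E : List Ed) (e : Ed) : List Wd :=
  [invW (tok d p s E e.1) ++ e.2.2 ++ p ((E.length + 1) * (d + 2)) ++
      (p (sel E.length).2.1 ++ invW (p (sel E.length).1)),
    p (sel E.length).1 ++ [((sel E.length).2.2, true)] ++ invW (p (sel E.length).1),
    invW (p (sel E.length).2.1 ++ invW (p (sel E.length).1)),
    invW (p (sel E.length).1 ++ [((sel E.length).2.2, true)] ++ invW (p (sel E.length).1)) ++
      (invW (tok d p s E e.2.1) ++ p ((E.length + 1) * (d + 2)))]

/-- The subset sum instance. -/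
def gads (E : List Ed) : List Wd :=
  (List.range E.length).flatMap fun i => gadget d p sel s (E.take i) (E.getD i (s, s, []))

theorem gads_snoc (E : List Ed) (e : Ed) :
    gads d p sel s (E ++ [e]) = gads d p sel s E ++ gadget d p sel s E e := by
  unfold gads
  rw [List.length_append, List.length_singleton, List.range_succ, List.flatMap_append]
  congr 1
  · refine List.flatMap_congr fun i hi => ?_
    have hi := List.mem_range.1 hi
    rw [List.take_append_of_le_length hi.le, List.getD_append _ _ _ _ hi]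
  · simp

theorem red_complete (E : List Ed) (v : Vx) (h : G) (hh : h ∈ DP xs s E v) :
    ∃ l : List Wd, l.Sublist (gads d p sel s E) ∧
      (l.map (ev xs)).prod = h * ev xs (tok d p s E v) := by
  induction E using List.reverseRecOn generalizing v h with
  | nil =>
    obtain ⟨rfl, rfl⟩ := hh
    exact ⟨[], by simp, by simp [tok, ver]⟩
  | append_singleton E e ih =>
    rw [gads_snoc, tok_snoc]
    rcases (mem_DP_snoc xs s E e v h).1 hh with h1 | ⟨rfl, h1⟩
    · obtain ⟨l, hl, hl'⟩ := ih v h h1
      split_ifs with hv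
      · refine ⟨l ++ [_, _], hl.append (.cons _ (.cons_cons _ (.cons _ (.refl _)))), ?_⟩
        simp [hl', hv, mul_assoc]
      · exact ⟨l, hl.trans (List.sublist_append_left _ _), hl'⟩
    · obtain ⟨l, hl, hl'⟩ := ih _ _ h1
      refine ⟨l ++ [_, _], hl.append (.cons_cons _ (.cons _ (.cons_cons _ (List.nil_sublist _)))), ?_⟩
      simp [hl', mul_assoc]

end

/-- A symmetric subadditive function. -/
structure IsNorm (n : G → ℕ) : Prop where
  one : n 1 = 0
  mul : ∀ a b, n (a * b) ≤ n a + n b
  inv : ∀ a, n a⁻¹ = n a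

theorem IsNorm.mul3 {n : G → ℕ} (hn : IsNorm n) (a b c : G) : n (a * b * c) ≤ n a + n b + n c :=
  (hn.mul _ _).trans (Nat.add_le_add_right (hn.mul _ _) _)

theorem gadget_cases {n n' : G → ℕ} (hn : IsNorm n) (hn' : IsNorm n') (hle : ∀ g, n' g ≤ n g)
    (a b m z : G) (k K : ℕ) (ha : n a ≤ k) (hb : n b ≤ k) (hm : n' m ≤ 3) (hK : K < n m)
    (hK' : K < n' (z * m * z⁻¹)) (l : List G) (hl : l.Sublist [a * z, m, z⁻¹, m⁻¹ * b]) :
    l.prod = 1 ∨ l.prod = a ∨ l.prod = b ∨ K < 2 * n l.prod + 4 * k + 20 := by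
  have km : ∀ u x w, m = u * x * w ∨ m = u * x⁻¹ * w → n u ≤ k → n w ≤ k →
      K < 2 * n x + 4 * k + 20 := by
    intro u x w h hu hw
    have h1 := hn.mul3 u x w
    have h2 := hn.mul3 u x⁻¹ w
    rw [hn.inv] at h2
    rcases h with h | h
    · rw [← h] at h1; omega
    · rw [← h] at h2; omega
  have km' : ∀ u x w, z * m * z⁻¹ = u * x * w → n' u ≤ k + 3 → n' w ≤ k + 3 →
      K < 2 * n x + 4 * k + 20 := by
    intro u x w h hu hw
    have h1 := hn'.mul3 u x w
    have := hle x
    rw [← h] at h1; omega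
  have kz : ∀ u x w, z = u * x * w ∨ z = u * x⁻¹ * w → n' u ≤ k + 3 → n' w ≤ k + 3 →
      K < 2 * n x + 4 * k + 20 := by
    intro u x w h hu hw
    have h1 := hn'.mul3 u x w
    have h2 := hn'.mul3 u x⁻¹ w
    have h3 := hn'.mul3 z m z⁻¹
    have := hle x
    rw [hn'.inv] at h2 h3
    rcases h with h | h
    · rw [← h] at h1; omega
    · rw [← h] at h2; omega
  have h1 : n 1 ≤ k := by rw [hn.one]; omega
  have h1' : n' 1 ≤ k + 3 := by rw [hn'.one]; omega
  have ha' : n' a⁻¹ ≤ k + 3 := by rw [hn'.inv]; have := hle a; omega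
  have hb' : n' b⁻¹ ≤ k + 3 := by rw [hn'.inv]; have := hle b; omega
  have hm1 : n' m ≤ k + 3 := by omega
  have hm2 : n' m⁻¹ ≤ k + 3 := by rw [hn'.inv]; omega
  have hbm : n' (b⁻¹ * m) ≤ k + 3 := by
    have := hn'.mul b⁻¹ m; have := hle b; rw [hn'.inv] at *; omega
  have hmb : n' (m⁻¹ * b) ≤ k + 3 := by
    have := hn'.mul m⁻¹ b; have := hle b; rw [hn'.inv] at *; omega
  rw [← List.mem_sublists'] at hl
  simp only [List.sublists'_cons, List.sublists'_nil, List.map_cons, List.map_nil,
    List.cons_append, List.nil_append, List.mem_cons, List.not_mem_nil, or_false] at hl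
  rcases hl with rfl | rfl | rfl | rfl | rfl | rfl | rfl | rfl | rfl | rfl | rfl | rfl | rfl |
    rfl | rfl | rfl <;> simp only [List.prod_cons, List.prod_nil]
  · exact Or.inl trivial
  · exact Or.inr (Or.inr (Or.inr (km b _ 1 (Or.inr (by group)) hb h1)))
  · exact Or.inr (Or.inr (Or.inr (kz 1 _ 1 (Or.inr (by group)) h1' h1')))
  · exact Or.inr (Or.inr (Or.inr (kz (m⁻¹ * b) _ 1 (Or.inr (by group)) hmb h1')))
  · exact Or.inr (Or.inr (Or.inr (km 1 _ 1 (Or.inl (by group)) h1 h1)))
  · exact Or.inr (Or.inr (Or.inl (by group)))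
  · exact Or.inr (Or.inr (Or.inr (kz 1 _ m (Or.inr (by group)) h1' hm1)))
  · exact Or.inr (Or.inr (Or.inr (kz (m⁻¹ * b) _ m (Or.inr (by group)) hmb hm1)))
  · exact Or.inr (Or.inr (Or.inr (kz a⁻¹ _ 1 (Or.inl (by group)) ha' h1')))
  · exact Or.inr (Or.inr (Or.inr (kz a⁻¹ _ (b⁻¹ * m) (Or.inl (by group)) ha' hbm)))
  · exact Or.inr (Or.inl (by group))
  · exact Or.inr (Or.inr (Or.inr (km b _ a (Or.inr (by group)) hb ha)))
  · exact Or.inr (Or.inr (Or.inr (kz a⁻¹ _ m⁻¹ (Or.inl (by group)) ha' hm2)))
  · exact Or.inr (Or.inr (Or.inr (kz a⁻¹ _ b⁻¹ (Or.inl (by group)) ha' hb')))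
  · exact Or.inr (Or.inr (Or.inr (km' a⁻¹ _ 1 (by group) ha' h1')))
  · exact Or.inr (Or.inr (Or.inr (km' a⁻¹ _ (b⁻¹ * m) (by group) ha' hbm)))

theorem IsNorm.sublist {n : G → ℕ} (hn : IsNorm n) {l L : List Wd} (h : l.Sublist L) :
    n (l.map (ev xs)).prod ≤ (L.map fun w => n (ev xs w)).sum := by
  induction h with
  | slnil => simp [hn.one]
  | cons a _ ih => simp only [List.map_cons, List.sum_cons]; omega
  | cons_cons a _ ih =>
    simp only [List.map_cons, List.sum_cons, List.prod_cons]
    exact (hn.mul _ _).trans (by omega)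

theorem lab_snoc (E : List Ed) (e : Ed) : lab (E ++ [e]) = lab E + e.2.2.length := by simp [lab]

/-- The hypotheses on the control words. -/
structure Ctrl (d : ℕ) (p : ℕ → Wd) (sel : ℕ → ℕ × ℕ × ℕ) (ν : ℕ → G → ℕ) (n0 K : ℕ) : Prop where
  norm : ∀ t, IsNorm (ν t)
  mono : ∀ t t' g, t ≤ t' → ν t' g ≤ ν t g
  len : ∀ t w, ν t (ev xs w) ≤ w.length
  old : ∀ t j, j < t → ν t (ev xs (p j)) ≤ 1
  far : ∀ i ≤ n0, K < 2 * ν (i * (d + 2)) (ev xs (p (i * (d + 2)))) + 2
  sel1 : ∀ i < n0, (i + 1) * (d + 2) < (sel i).1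
  sel2 : ∀ i < n0, (sel i).1 < (sel i).2.1
  sel3 : ∀ i < n0, (sel i).2.1 < (i + 2) * (d + 2)
  far1 : ∀ i < n0, K < ν (sel i).1
    (ev xs (p (sel i).1 ++ [((sel i).2.2, true)] ++ invW (p (sel i).1)))
  far2 : ∀ i < n0, K < ν (sel i).2.1
    (ev xs (p (sel i).2.1 ++ [((sel i).2.2, true)] ++ invW (p (sel i).2.1)))

section

variable {xs} {d : ℕ} {p : ℕ → Wd} {sel : ℕ → ℕ × ℕ × ℕ} {ν : ℕ → G → ℕ} {n0 K : ℕ}

theorem Ctrl.tok_le (C : Ctrl xs d p sel ν n0 K) (s : Vx) (E : List Ed) (v : Vx) (T : ℕ)
    (hT : E.length * (d + 2) < T) : ν T (ev xs (tok d p s E v)) ≤ 1 := by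
  unfold tok
  split_ifs
  · simp [(C.norm T).one]
  · exact C.old _ _ (by omega)
  · exact C.old _ _ ((Nat.mul_le_mul_right _ (ver_le E v)).trans_lt hT)

theorem Ctrl.gads_le (C : Ctrl xs d p sel ν n0 K) (s : Vx) (E : List Ed) (hE : E.length ≤ n0)
    (T : ℕ) (hT : (E.length + 1) * (d + 2) ≤ T) :
    ((gads d p sel s E).map fun w => ν T (ev xs w)).sum ≤ lab E + 14 * E.length := by
  induction E using List.reverseRecOn with
  | nil => simp [gads]
  | append_singleton E e ih =>
    simp only [List.length_append, List.length_singleton] at hE hT ⊢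
    have hn := C.norm T
    replace hT : (E.length + 2) * (d + 2) ≤ T := hT
    have e1 := C.sel1 E.length (by omega)
    have e2 := C.sel2 E.length (by omega)
    have e3 := C.sel3 E.length (by omega)
    have i0 : E.length * (d + 2) < T := by nlinarith
    have i1 := ih (by omega) (by nlinarith)
    have t1 := C.tok_le s E e.1 T i0
    have t2 := C.tok_le s E e.2.1 T i0
    have p0 := C.old T ((E.length + 1) * (d + 2)) (by omega)
    have p1 := C.old T (sel E.length).1 (by omega)
    have p2 := C.old T (sel E.length).2.1 (by omega)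
    have p3 := C.len T [((sel E.length).2.2, true)]
    have p4 := C.len T e.2.2
    rw [gads_snoc, lab_snoc]
    simp only [gadget, List.map_append, List.sum_append, List.map_cons, List.map_nil,
      List.sum_cons, List.sum_nil, ev_append, ev_invW, List.length_singleton] at p3 ⊢
    generalize ev xs (tok d p s E e.1) = a1 at *
    generalize ev xs (tok d p s E e.2.1) = a2 at *
    generalize ev xs (p ((E.length + 1) * (d + 2))) = a3 at *
    generalize ev xs (p (sel E.length).1) = a4 at *
    generalize ev xs (p (sel E.length).2.1) = a5 at *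
    generalize ev xs [((sel E.length).2.2, true)] = a6 at *
    generalize ev xs e.2.2 = a7 at *
    have q1 := hn.mul (a1⁻¹ * a7 * a3) (a5 * a4⁻¹)
    have q2 := hn.mul3 a1⁻¹ a7 a3
    have q3 := hn.mul a5 a4⁻¹
    have q4 := hn.mul3 a4 a6 a4⁻¹
    have q5 := hn.mul (a4 * a6 * a4⁻¹)⁻¹ (a2⁻¹ * a3)
    have q6 := hn.mul a2⁻¹ a3
    simp only [hn.inv] at *
    omega

theorem Ctrl.red_sound (C : Ctrl xs d p sel ν n0 K) (N : ℕ) (hK : 6 * N + 28 * n0 + 30 ≤ K)
    (s : Vx) (E : List Ed) (hE : E.length ≤ n0) (l : List Wd) (hl : l.Sublist (gads d p sel s E))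
    (v : Vx) (h : G) (hh : ν 0 h + lab E ≤ N)
    (hp : (l.map (ev xs)).prod = h * ev xs (tok d p s E v)) : h ∈ DP xs s E v := by
  induction E using List.reverseRecOn generalizing l v h with
  | nil =>
    obtain rfl : l = [] := by simpa [gads] using hl
    by_cases hv : v = s
    · exact ⟨hv, by simpa [tok, ver, hv] using hp.symm⟩
    · exfalso
      have e1 : ev xs (p 0) = h⁻¹ := by
        simp only [tok, ver, List.length_nil, List.range_zero, List.countP_nil, if_true, hv,
          if_false, List.map_nil, List.prod_nil] at hp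
        exact eq_inv_of_mul_eq_one_right hp.symm
      have := C.far 0 (by omega)
      rw [zero_mul, e1, (C.norm 0).inv] at this
      omega
  | append_singleton E e ih =>
    rw [gads_snoc, List.sublist_append_iff] at hl
    obtain ⟨l1, l2, rfl, hl1, hl2⟩ := hl
    simp only [List.length_append, List.length_singleton] at hE
    rw [lab_snoc] at hh
    rw [List.map_append, List.prod_append] at hp
    have e1 := C.sel1 E.length (by omega)
    have e2 := C.sel2 E.length (by omega)
    have f0 := C.far (E.length + 1) hE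
    have f1 := C.far1 E.length (by omega)
    have f2 := C.far2 E.length (by omega)
    have i0 : E.length * (d + 2) < (E.length + 1) * (d + 2) := by nlinarith
    have b1 : ∀ T, (E.length + 1) * (d + 2) ≤ T →
        ν T (l1.map (ev xs)).prod ≤ lab E + 14 * E.length := fun T hT =>
      ((C.norm T).sublist xs hl1).trans (C.gads_le s E (by omega) T hT)
    have b2 : ∀ T, ν T h ≤ ν 0 h := fun T => C.mono _ _ _ (Nat.zero_le _)
    have hT := C.norm ((E.length + 1) * (d + 2))
    have small : ∀ a b x y c : G, ν ((E.length + 1) * (d + 2)) a ≤ e.2.2.length →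
        ν ((E.length + 1) * (d + 2)) b ≤ 1 → ν ((E.length + 1) * (d + 2)) c ≤ 1 →
        (x = ((l1.map (ev xs)).prod)⁻¹ ∧ y = h ∨ x = h⁻¹ ∧ y = (l1.map (ev xs)).prod) →
        ev xs (p ((E.length + 1) * (d + 2))) ≠ a * b * x * y * c := by
      intro a b x y c ha hb hc hxy he
      have q1 := hT.mul3 (a * b * x) y c
      have q2 := hT.mul3 a b x
      have q3 := b1 _ le_rfl
      have q4 := b2 ((E.length + 1) * (d + 2))
      rw [← he] at q1
      rcases hxy with ⟨rfl, rfl⟩ | ⟨rfl, rfl⟩ <;> rw [hT.inv] at q2 <;> omega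
    have o1 : ν ((E.length + 1) * (d + 2)) 1 ≤ 1 := by rw [hT.one]; omega
    have o2 : ν ((E.length + 1) * (d + 2)) 1 ≤ e.2.2.length := by rw [hT.one]; omega
    have t1 := fun v => C.tok_le s E v _ i0
    have ht := C.norm (sel E.length).1
    have ht' := C.norm (sel E.length).2.1
    have t2 := fun v => C.tok_le s E v (sel E.length).1 (by omega)
    have p0 := C.old (sel E.length).1 ((E.length + 1) * (d + 2)) e1
    have key := gadget_cases ht ht' (fun g => C.mono _ _ g e2.le)
      ((ev xs (tok d p s E e.1))⁻¹ * ev xs e.2.2 * ev xs (p ((E.length + 1) * (d + 2))))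
      ((ev xs (tok d p s E e.2.1))⁻¹ * ev xs (p ((E.length + 1) * (d + 2))))
      (ev xs (p (sel E.length).1 ++ [((sel E.length).2.2, true)] ++ invW (p (sel E.length).1)))
      (ev xs (p (sel E.length).2.1) * (ev xs (p (sel E.length).1))⁻¹) (N + 2) K
      (by
        have q1 := ht.mul3 (ev xs (tok d p s E e.1))⁻¹ (ev xs e.2.2)
          (ev xs (p ((E.length + 1) * (d + 2))))
        have q2 := C.len (sel E.length).1 e.2.2
        have q3 := t2 e.1
        rw [ht.inv] at q1; omega)
      (by
        have q1 := ht.mul (ev xs (tok d p s E e.2.1))⁻¹ (ev xs (p ((E.length + 1) * (d + 2))))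
        have q3 := t2 e.2.1
        rw [ht.inv] at q1; omega)
      (by
        have q1 := ht'.mul3 (ev xs (p (sel E.length).1)) (ev xs [((sel E.length).2.2, true)])
          (ev xs (p (sel E.length).1))⁻¹
        have q2 := C.len (sel E.length).2.1 [((sel E.length).2.2, true)]
        have q3 := C.old _ _ e2
        simp only [ev_append, ev_invW, ht'.inv, List.length_singleton] at *
        omega)
      f1 (by
        convert f2 using 2
        simp only [ev_append, ev_invW]; group)
      (l2.map (ev xs)) (by simpa only [gadget, List.map_cons, List.map_nil, ev_append, ev_invW] using hl2.map (ev xs))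
    rw [mem_DP_snoc]
    rw [tok_snoc] at hp
    rcases key with k | k | k | k
    · rw [k, mul_one] at hp
      split_ifs at hp with hv
      · exact absurd (by rw [hp]; group) (small 1 1 _ _ 1 o2 o1 o1 (Or.inr ⟨rfl, rfl⟩))
      · exact Or.inl (ih (by omega) l1 hl1 v h (by omega) hp)
    · rw [k] at hp
      split_ifs at hp with hv
      · refine Or.inr ⟨hv.symm, ih (by omega) l1 hl1 _ _ ?_ ?_⟩
        · have q1 := (C.norm 0).mul h (ev xs e.2.2)⁻¹
          have q2 := C.len 0 e.2.2
          rw [(C.norm 0).inv] at q1; omega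
        · rw [← mul_assoc, mul_left_inj] at hp
          rw [← hp]; group
      · refine absurd ?_ (small (ev xs e.2.2)⁻¹ _ _ _ _ (by rw [hT.inv]; exact C.len _ _)
          (t1 e.1) (t1 v) (Or.inl ⟨rfl, rfl⟩))
        rw [mul_assoc _ h, ← hp]; group
    · rw [k] at hp
      split_ifs at hp with hv
      · refine Or.inl (ih (by omega) l1 hl1 _ _ (by omega) ?_)
        rw [← mul_assoc, mul_left_inj] at hp
        rw [← hp, hv]; group
      · refine absurd ?_ (small 1 _ _ _ _ o2 (t1 e.2.1) (t1 v) (Or.inl ⟨rfl, rfl⟩))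
        rw [mul_assoc _ h, ← hp]; group
    · exfalso
      have q0 : ν (sel E.length).1 (ev xs (tok d p s (E ++ [e]) v)) ≤ 1 :=
        C.tok_le s _ v _ (by simpa using e1)
      rw [← tok_snoc] at hp
      have q1 := ht.mul3 ((l1.map (ev xs)).prod)⁻¹ h (ev xs (tok d p s (E ++ [e]) v))
      rw [mul_assoc, ← hp, inv_mul_cancel_left, ht.inv] at q1
      have q2 := b1 _ e1.le
      have q3 := b2 (sel E.length).1
      omega

end

end Pool.Agent.P.MP_867493_lc
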