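import Pool.Agent.P.MP_867493_lc.Ctl

/-! Zero-error solvers for the path problem in labelled graphs. -/

set_option autoImplicit false

namespace Pool.Agent.P.MP_867493_lc

open Pool.Agent.Lib.NP Polynomial

variable {α : Type} [Enc α]

theorem msk_eq {β : Type} (c : List β) (r : List Bool) :
    msk c r = (List.range c.length).flatMap fun i => bif r.getD i false then (c.drop i).take 1 else [] := by
  induction c generalizing r with
  | nil => simp [msk]
  | cons a c ih =>
    rw [List.length_cons, List.range_succ_eq_map, List.flatMap_cons, List.flatMap_map]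
    cases r with
    | nil => simp [msk]
    | cons b r => cases b <;> simp [msk, ih r]

@[fun_prop] theorem pt_msk {β : Type} [Enc β] {c : α → List β} {r : α → List Bool} (hc : PT c)
    (hr : PT r) : PT (fun a => msk (c a) (r a)) := by
  simp only [msk_eq]; fun_prop

@[fun_prop] theorem pt_invW {w : α → Wd} (hw : PT w) : PT (fun a => invW (w a)) := by
  unfold invW; fun_prop

@[fun_prop] theorem pt_cw (d : ℕ) {L t : α → ℕ} {r : α → List Bool} (hL : PT L) (hr : PT r)
    (ht : PT t) : PT (fun a => cw d (L a) (r a) (t a)) := by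
  unfold cw; fun_prop

@[fun_prop] theorem pt_olds (d : ℕ) {L t : α → ℕ} {r : α → List Bool} (hL : PT L) (hr : PT r)
    (ht : PT t) : PT (fun a => olds d (L a) (r a) (t a)) := by
  unfold olds; fun_prop

@[fun_prop] theorem pt_farB {f : List Wd × Wd → Bool} (hf : PT f) (d : ℕ) {L K t j : α → ℕ}
    {r : α → List Bool} (hL : PT L) (hK : PT K) (hr : PT r) (ht : PT t) (hj : PT j) :
    PT (fun a => farB f d (L a) (K a) (r a) (t a) (j a)) := by
  unfold farB chain; fun_prop

@[fun_prop] theorem pt_selB {f : List Wd × Wd → Bool} (hf : PT f) (d : ℕ) {L K i : α → ℕ}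
    {r : α → List Bool} (hL : PT L) (hK : PT K) (hr : PT r) (hi : PT i) :
    PT (fun a => selB f d (L a) (K a) (r a) (i a)) := by
  unfold selB cands; fun_prop

@[fun_prop] theorem pt_chkB {f : List Wd × Wd → Bool} (hf : PT f) (d : ℕ) {L K M : α → ℕ}
    {r : α → List Bool} (hL : PT L) (hK : PT K) (hr : PT r) (hM : PT M) :
    PT (fun a => chkB f d (L a) (K a) (r a) (M a)) := by
  unfold chkB; fun_prop

@[fun_prop] theorem pt_ver {E : α → List Ed} {v : α → Vx} (hE : PT E) (hv : PT v) :
    PT (fun a => ver (E a) (v a)) := by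
  unfold ver; fun_prop

theorem pt_tok (d : ℕ) {p : α → ℕ → Wd} (hp : PT (fun x : α × ℕ => p x.1 x.2))
    {E : α → List Ed} {s v : α → Vx} (hs : PT s) (hE : PT E) (hv : PT v) :
    PT (fun a => tok d (p a) (s a) (E a) (v a)) := by
  unfold tok; fun_prop

theorem pt_gadget (d : ℕ) {p : α → ℕ → Wd} (hp : PT (fun x : α × ℕ => p x.1 x.2))
    {sel : α → ℕ → ℕ × ℕ × ℕ} (hsel : PT (fun x : α × ℕ => sel x.1 x.2))
    {E : α → List Ed} {s : α → Vx} {e : α → Ed} (hs : PT s) (hE : PT E) (he : PT e) :
    PT (fun a => gadget d (p a) (sel a) (s a) (E a) (e a)) := by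
  have h1 := pt_tok d hp hs hE he.fst
  have h2 := pt_tok d hp hs hE he.snd.fst
  have h3 : PT (fun a => sel a (E a).length) := by fun_prop
  have h4 : PT (fun a => p a (sel a (E a).length).1) := hp.comp (PT.id'.mk h3.fst)
  have h5 : PT (fun a => p a (sel a (E a).length).2.1) := hp.comp (PT.id'.mk h3.snd.fst)
  have h6 : PT (fun a => p a (((E a).length + 1) * (d + 2))) := by fun_prop
  have h7 : PT (fun a => p a (sel a (E a).length).1 ++ [((sel a (E a).length).2.2, true)] ++
      invW (p a (sel a (E a).length).1)) :=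
    (h4.append ((h3.snd.snd.mk (PT.const _)).cons (PT.const _))).append (pt_invW h4)
  exact (((((pt_invW h1).append he.snd.snd).append h6).append (h5.append (pt_invW h4))).cons
    (h7.cons ((pt_invW (h5.append (pt_invW h4))).cons (((pt_invW h7).append
      ((pt_invW h2).append h6)).cons (PT.const _)))))

theorem pt_gads (d : ℕ) {p : α → ℕ → Wd} (hp : PT (fun x : α × ℕ => p x.1 x.2))
    {sel : α → ℕ → ℕ × ℕ × ℕ} (hsel : PT (fun x : α × ℕ => sel x.1 x.2))
    {E : α → List Ed} {s : α → Vx} (hs : PT s) (hE : PT E) :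
    PT (fun a => gads d (p a) (sel a) (s a) (E a)) :=
  PT.flatMap (pt_gadget d (p := fun x : α × ℕ => p x.1) (sel := fun x : α × ℕ => sel x.1)
    (hp.comp (g := fun x : (α × ℕ) × ℕ => (x.1.1, x.2)) (by fun_prop))
    (hsel.comp (g := fun x : (α × ℕ) × ℕ => (x.1.1, x.2)) (by fun_prop))
    (by fun_prop) (by fun_prop) (by fun_prop)) (by fun_prop)

variable {G : Type} [Group G] (xs : List G)

/-- The path problem has a solver that is exact whenever its random bits pass a test, which they
do with probability at least `3 / 4`. -/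
def Solvable : Prop :=
  ∃ (len : ℕ → ℕ) (chk : ℕ × List Bool → Bool) (sol : (ℕ × List Bool) × Vx × Vx × List Ed → Bool),
    PT len ∧ PT chk ∧ PT sol ∧
    (∀ N r, chk (N, r) = true → ∀ s t E, E.length ≤ N → lab E ≤ N →
      (sol ((N, r), s, t, E) = true ↔ (1 : G) ∈ DP xs s E t)) ∧
    ∀ N, 3 / 4 ≤ avg (len N) (fun r => if chk (N, r) then (1 : ℝ) else 0)

theorem ball_finite (n : ℕ) : (ball xs n).Finite := by
  induction n with
  | zero => exact (Set.finite_singleton 1).subset (by rintro _ ⟨w, hw, rfl⟩; simp_all)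
  | succ n ih =>
    refine (ih.union (((xs.finite_toSet.insert 1).union (xs.finite_toSet.insert 1).inv).mul
      ih)).subset ?_
    rintro _ ⟨w, hw, rfl⟩
    cases w with
    | nil => exact Or.inl ⟨[], by simp, rfl⟩
    | cons l w =>
      rcases l with ⟨i, b⟩
      refine Or.inr ⟨_, ?_, _, ⟨w, by simpa using hw, rfl⟩, (ev_cons xs _ w).symm⟩
      have : xs.getD i 1 ∈ insert 1 {x | x ∈ xs} := by
        by_cases hi : i < xs.length
        · exact Or.inr (by simp [hi])
        · exact Or.inl (List.getD_eq_default _ _ (by omega))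
      cases b
      · exact Or.inr (by simpa [ev_single] using this)
      · exact Or.inl (by simpa [ev_single] using this)

theorem solvable_of_growth (hxs : Subgroup.closure {x | x ∈ xs} = ⊤) (f : List Wd × Wd → Bool)
    (hf : ∀ I, f I = true ↔ SSP xs I) (hpt : PT f) (q : Polynomial ℕ)
    (hq : ∀ h, 2 ^ h ≤ ((QuotientGroup.mk : G → G ⧸ Subgroup.center G) ''
      ball xs (q.eval h)).ncard) : Solvable xs := by
  have hd : 1 ≤ xs.length := by
    by_contra hd
    obtain rfl : xs = [] := List.length_eq_zero_iff.1 (by omega)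
    have h1 : (QuotientGroup.mk : G → G ⧸ Subgroup.center G) '' ball [] (q.eval 1) ⊆ {1} := by
      rintro _ ⟨_, ⟨w, -, rfl⟩, rfl⟩
      have : ev ([] : List G) w = 1 := by simp [ev]
      simp [this]
    have := (hq 1).trans (Set.ncard_le_ncard h1)
    simp at this
  let d := xs.length
  let K : ℕ → ℕ := fun N => 34 * N + 30
  let M : ℕ → ℕ := fun N => (N + 1) * (d + 2)
  let h : ℕ → ℕ := fun N => K N * (2 * (d + M N)) * d + 1 + 2 * (M N + 2)
  let L : ℕ → ℕ := fun N => 2 * (q.eval (h N) + 1) ^ 2 * d * h N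
  have hK : PT K := by fun_prop
  have hM : PT M := by fun_prop
  have hh : PT h := by fun_prop
  have hL : PT L := by fun_prop
  have hp : PT (fun x : ((ℕ × List Bool) × Vx × Vx × List Ed) × ℕ =>
      cw d (L x.1.1.1) x.1.1.2 x.2) := pt_cw d (hL.comp (by fun_prop)) (by fun_prop) (by fun_prop)
  have hs : PT (fun x : ((ℕ × List Bool) × Vx × Vx × List Ed) × ℕ =>
      selB f d (L x.1.1.1) (K x.1.1.1) x.1.1.2 x.2) :=
    pt_selB hpt d (hL.comp (by fun_prop)) (hK.comp (by fun_prop)) (by fun_prop) (by fun_prop)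
  have hg := pt_gads d
    (p := fun x : (ℕ × List Bool) × Vx × Vx × List Ed => cw d (L x.1.1) x.1.2)
    (sel := fun x => selB f d (L x.1.1) (K x.1.1) x.1.2) (s := fun x => x.2.1)
    (E := fun x => x.2.2.2) hp hs (by fun_prop) (by fun_prop)
  have ht := pt_tok d
    (p := fun x : (ℕ × List Bool) × Vx × Vx × List Ed => cw d (L x.1.1) x.1.2)
    (s := fun x => x.2.1) (v := fun x => x.2.2.1)
    (E := fun x => x.2.2.2) hp (by fun_prop) (by fun_prop) (by fun_prop)
  refine ⟨fun N => M N * (L N * d), fun x => chkB f d (L x.1) (K x.1) x.2 (M x.1),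
    fun x => f (gads d (cw d (L x.1.1) x.1.2) (selB f d (L x.1.1) (K x.1.1) x.1.2) x.2.1 x.2.2.2,
      tok d (cw d (L x.1.1) x.1.2) x.2.1 x.2.2.2 x.2.2.1), hM.mul (hL.mul (PT.const _)),
    pt_chkB hpt d (hL.comp (by fun_prop)) (hK.comp (by fun_prop)) (by fun_prop)
      (hM.comp (by fun_prop)),
    hpt.comp (hg.mk ht),
    fun N r hc s t E h1 h2 => ?_, fun N => ?_⟩
  · have C := ctrl_of_chk xs hxs f hf (L N) (K N) N r hc
    rw [hf]
    constructor
    · rintro ⟨l, hl, hl'⟩
      exact C.red_sound N (by simp only [K]; omega) s E h1 l hl t 1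
        (by rw [(C.norm 0).one]; omega) (by rw [one_mul]; exact hl')
    · intro h3
      obtain ⟨l, hl, hl'⟩ := red_complete xs d (cw d (L N) r) (selB f d (L N) (K N) r) s E t 1 h3
      exact ⟨l, hl, by rw [hl', one_mul]⟩
  · have hfin := (ball_finite xs (q.eval (h N))).image
      (QuotientGroup.mk : G → G ⧸ Subgroup.center G)
    refine chk_prob f d (L N) (K N) (M N) _ fun t ht => fail_prob xs hxs f hf hd (K N) (M N)
      (q.eval (h N) + 1) (h N) (M N + 2) (by omega) le_rfl hfin.toFinset ?_ ?_ t ht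
    · rw [← Set.ncard_eq_toFinset_card _ hfin]; exact hq _
    · intro g hg
      obtain ⟨_, ⟨w, hw, rfl⟩, rfl⟩ := hfin.mem_toFinset.1 hg
      exact ⟨w, by omega, rfl⟩

/-- Insert a pair unless an equivalent pair is present. -/
def ins (f : List Wd × Wd → Bool) (acc : List (Vx × Wd)) (x : Vx × Wd) : List (Vx × Wd) :=
  bif acc.any (fun y => decide (y.1 = x.1) && f ([], y.2 ++ invW x.2)) then acc else x :: acc

def dpStep (f : List Wd × Wd → Bool) (S : List (Vx × Wd)) (e : Ed) : List (Vx × Wd) :=
  ((S.filter fun y => decide (y.1 = e.1)).map fun y => (e.2.1, y.2 ++ e.2.2)).foldl (ins f) S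

theorem ssp_nil (w : Wd) : SSP xs ([], w) ↔ ev xs w = 1 := by simp [SSP, eq_comm]

theorem ins_fold (f : List Wd × Wd → Bool) (hf : ∀ I, f I = true ↔ SSP xs I)
    (l acc : List (Vx × Wd)) (hacc : (acc.map fun y => (y.1, ev xs y.2)).Nodup) :
    ((l.foldl (ins f) acc).map fun y => (y.1, ev xs y.2)).Nodup ∧
    (∀ y ∈ l.foldl (ins f) acc, y ∈ acc ∨ y ∈ l) ∧
    ∀ y, y ∈ acc ∨ y ∈ l → (y.1, ev xs y.2) ∈ (l.foldl (ins f) acc).map fun y => (y.1, ev xs y.2) := by
  induction l generalizing acc with
  | nil => exact ⟨hacc, fun y hy => Or.inl hy, fun y hy => List.mem_map_of_mem (by simpa using hy)⟩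
  | cons x l ih =>
    have key : acc.any (fun y => decide (y.1 = x.1) && f ([], y.2 ++ invW x.2)) = true ↔
        (x.1, ev xs x.2) ∈ acc.map fun y => (y.1, ev xs y.2) := by
      simp [hf, ssp_nil, mul_inv_eq_one]
    rw [List.foldl_cons]
    by_cases hx : (x.1, ev xs x.2) ∈ acc.map fun y => (y.1, ev xs y.2)
    · have e : ins f acc x = acc := by simp only [ins, key.2 hx, cond_true]
      rw [e]
      obtain ⟨h1, h2, h3⟩ := ih acc hacc
      refine ⟨h1, fun y hy => (h2 y hy).imp_right (List.mem_cons_of_mem _), ?_⟩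
      rintro y (hy | hy)
      · exact h3 y (Or.inl hy)
      · rcases List.mem_cons.1 hy with rfl | hy
        · obtain ⟨z, hz, hz'⟩ := List.mem_map.1 hx
          rw [← hz']; exact h3 z (Or.inl hz)
        · exact h3 y (Or.inr hy)
    · have e : ins f acc x = x :: acc := by
        simp only [ins, Bool.eq_false_iff.2 (mt key.1 hx), cond_false]
      rw [e]
      obtain ⟨h1, h2, h3⟩ := ih (x :: acc) (List.nodup_cons.2 ⟨hx, hacc⟩)
      refine ⟨h1, fun y hy => ?_, fun y hy => h3 y ?_⟩
      · have := h2 y hy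
        simp only [List.mem_cons] at this ⊢; tauto
      · simp only [List.mem_cons] at hy ⊢; tauto

theorem dp_fold (f : List Wd × Wd → Bool) (hf : ∀ I, f I = true ↔ SSP xs I) (s : Vx)
    (E : List Ed) :
    ((E.foldl (dpStep f) [(s, [])]).map fun y => (y.1, ev xs y.2)).Nodup ∧
    (∀ y ∈ E.foldl (dpStep f) [(s, [])], y.1 ∈ s :: E.map (·.2.1) ∧ y.2.length ≤ lab E) ∧
    ∀ v h, h ∈ DP xs s E v ↔
      (v, h) ∈ (E.foldl (dpStep f) [(s, [])]).map fun y => (y.1, ev xs y.2) := by
  induction E using List.reverseRecOn with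
  | nil => simp [mem_DP_nil]
  | append_singleton E e ih =>
    obtain ⟨h1, h2, h3⟩ := ih
    rw [List.foldl_append, List.foldl_cons, List.foldl_nil]
    generalize E.foldl (dpStep f) [(s, [])] = S at h1 h2 h3
    obtain ⟨k1, k2, k3⟩ := ins_fold xs f hf
      ((S.filter fun y => decide (y.1 = e.1)).map fun y => (e.2.1, y.2 ++ e.2.2)) S h1
    refine ⟨k1, fun y hy => ?_, fun v h => ?_⟩
    · rw [lab_snoc]
      rcases k2 y hy with h | h
      · have := h2 y h
        simp only [List.map_append, List.mem_cons, List.mem_append] at this ⊢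
        exact ⟨by tauto, by omega⟩
      · obtain ⟨z, hz, rfl⟩ := List.mem_map.1 h
        have := (h2 z (List.mem_filter.1 hz).1).2
        exact ⟨by simp, by simp; omega⟩
    · rw [mem_DP_snoc, h3, h3]
      constructor
      · rintro (h | ⟨rfl, h⟩)
        · obtain ⟨z, hz, hz'⟩ := List.mem_map.1 h
          rw [← hz']; exact k3 z (Or.inl hz)
        · obtain ⟨z, hz, hz'⟩ := List.mem_map.1 h
          simp only [Prod.mk.injEq] at hz'
          have := k3 (e.2.1, z.2 ++ e.2.2) (Or.inr (List.mem_map.2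
            ⟨z, List.mem_filter.2 ⟨hz, by simp [hz'.1]⟩, rfl⟩))
          simpa only [dpStep, ev_append, hz'.2, inv_mul_cancel_right] using this
      · intro h
        obtain ⟨y, hy, hy'⟩ := List.mem_map.1 h
        rcases k2 y hy with h | h
        · exact Or.inl (List.mem_map.2 ⟨y, h, hy'⟩)
        · obtain ⟨z, hz, rfl⟩ := List.mem_map.1 h
          simp only [Prod.mk.injEq] at hy'
          obtain ⟨hz1, hz2⟩ := List.mem_filter.1 hz
          refine Or.inr ⟨hy'.1.symm, List.mem_map.2 ⟨z, hz1, ?_⟩⟩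
          rw [← hy'.2, of_decide_eq_true hz2]; simp

theorem pt_dpStep {f : List Wd × Wd → Bool} (hpt : PT f) :
    PT (fun x : List (Vx × Wd) × Ed => dpStep f x.1 x.2) := by
  refine PT.foldl_add (f := fun _ acc x => ins f acc x) (by unfold ins; fun_prop) (by fun_prop)
    (by fun_prop) (2 * X + 1) fun a s b => ?_
  unfold ins
  cases s.any (fun y => decide (y.1 = b.1) && f ([], y.2 ++ invW b.2))
  · simp; omega
  · simp

theorem lab_le_sz (E : List Ed) : lab E ≤ sz E := by
  induction E with
  | nil => simp [lab]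
  | cons e E ih =>
    have := (length_le_sz e.2.2).trans ((sz_snd_le e.2).trans (sz_snd_le e))
    simp only [lab, List.map_cons, List.sum_cons, sz_cons] at ih ⊢; omega

theorem dp_size (f : List Wd × Wd → Bool) (s : Vx) (E : List Ed) (B : ℕ) (hs : sz s ≤ B)
    (hE : sz E ≤ B) : ∀ y ∈ E.foldl (dpStep f) [(s, [])], sz y.1 ≤ B ∧ sz y.2 ≤ sz E := by
  have sub : ∀ l acc : List (Vx × Wd), ∀ y ∈ l.foldl (ins f) acc, y ∈ acc ∨ y ∈ l := by
    intro l
    induction l with
    | nil => exact fun acc y hy => Or.inl hy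
    | cons x l ih =>
      intro acc y hy
      rcases ih _ y hy with h | h
      · unfold ins at h
        cases hc : acc.any (fun y => decide (y.1 = x.1) && f ([], y.2 ++ invW x.2)) <;>
          simp only [hc, cond_true, cond_false, List.mem_cons] at h ⊢ <;> tauto
      · exact Or.inr (List.mem_cons_of_mem _ h)
  induction E using List.reverseRecOn with
  | nil => simpa using hs
  | append_singleton E e ih =>
    rw [List.foldl_append, List.foldl_cons, List.foldl_nil]
    simp only [sz_append, sz_cons, sz_nil] at hE ⊢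
    intro y hy
    have ih := ih (by omega)
    have e1 := (sz_fst_le e.2).trans (sz_snd_le e)
    have e2 := (sz_snd_le e.2).trans (sz_snd_le e)
    rcases sub _ _ y hy with h | h
    · have := ih y h; omega
    · obtain ⟨z, hz, rfl⟩ := List.mem_map.1 h
      have := ih z (List.mem_filter.1 hz).1
      simp only [sz_append]; omega

theorem solvable_of_poly (f : List Wd × Wd → Bool)
    (hf : ∀ I, f I = true ↔ SSP xs I) (hpt : PT f) (q : Polynomial ℕ)
    (hq : ∀ n, (ball xs n).ncard ≤ q.eval n) : Solvable xs := by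
  classical
  have h1 : PT (fun x : Vx × List Ed => x.2.foldl (dpStep f) [(x.1, [])]) := by
    refine PT.foldl (f := fun _ S e => dpStep f S e)
      ((pt_dpStep hpt).comp (g := fun x : (Vx × List Ed) × List (Vx × Wd) × Ed => x.2)
        (by fun_prop)) (by fun_prop) (by fun_prop) ((X + 1) * q * (2 * (3 * X + 1) + 1)) ?_
    rintro ⟨s, E⟩ i
    have b1 : sz (E.take i) ≤ sz (s, E) := (PT.sz_take_le _ _).trans (sz_snd_le (s, E))
    obtain ⟨k1, k2, -⟩ := dp_fold xs f hf s (E.take i)
    have k3 := dp_size f s (E.take i) _ (sz_fst_le (s, E)) b1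
    simp only
    generalize (E.take i).foldl (dpStep f) [(s, [])] = S at k1 k2 k3
    refine (sz_list_le S (3 * sz (s, E) + 1) fun y hy => ?_).trans ?_
    · have := k3 y hy
      rcases y with ⟨y1, y2⟩
      rw [sz_prod]; simp only at this; omega
    · simp only [eval_mul, eval_add, eval_X, eval_one, eval_ofNat]
      refine Nat.mul_le_mul_right _ ?_
      have hfin := ball_finite xs (sz (s, E))
      have k4 := List.toFinset_card_of_nodup k1
      rw [List.length_map] at k4
      rw [← k4]
      refine (Finset.card_le_card (t := (s :: (E.take i).map (·.2.1)).toFinset ×ˢ hfin.toFinset)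
        fun z hz => ?_).trans ?_
      · obtain ⟨y, hy, rfl⟩ := List.mem_map.1 (List.mem_toFinset.1 hz)
        exact Finset.mem_product.2 ⟨List.mem_toFinset.2 (k2 y hy).1, hfin.mem_toFinset.2
          ⟨y.2, (k2 y hy).2.trans ((lab_le_sz _).trans b1), rfl⟩⟩
      · rw [Finset.card_product, ← Set.ncard_eq_toFinset_card _ hfin]
        refine Nat.mul_le_mul ((List.toFinset_card_le _).trans ?_) (hq _)
        have := (length_le_sz _).trans b1
        simpa using this
  refine ⟨fun _ => 0, fun _ => true, fun x => (x.2.2.2.foldl (dpStep f) [(x.2.1, [])]).any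
    fun y => decide (y.1 = x.2.2.1) && f ([], y.2), PT.const _, PT.const _,
    PT.any (by fun_prop) (h1.comp (g := fun x : (ℕ × List Bool) × Vx × Vx × List Ed =>
      (x.2.1, x.2.2.2)) (by fun_prop)), fun N r _ s t E _ _ => ?_, fun N => by
        simp [avg]; norm_num⟩
  rw [(dp_fold xs f hf s E).2.2]
  simp [hf, ssp_nil]

end Pool.Agent.P.MP_867493_lc
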